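import Mathlib
import Pool.Agent.H469R2.NK.KL

/-!
Detection of fractional parts in a short interval by a Fejer type kernel.
-/

open Finset

namespace Pool.Agent.H428R3.SN

open Pool.Agent.H469R2.NK (e norm_e e_add conj_e e_zero e_nat kusmin_landau_mono)

lemma e_int (k : ℤ) : e (k : ℝ) = 1 := by
  obtain ⟨n, rfl | rfl⟩ := Int.eq_nat_or_neg k
  · have := e_nat n
    push_cast
    exact this
  · have h := e_nat n
    push_cast
    rw [← conj_e, h, map_one]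

lemma geo (u : ℝ) (k : ℤ) {θ : ℝ} (hθ : 0 < θ) (h1 : θ ≤ u - k) (h2 : u - k ≤ 1 - θ) (H : ℕ) :
    ‖∑ h ∈ range H, e (h * u)‖ ≤ 2 / θ := by
  have e1 : ∀ h : ℕ, e (h * u) = e (h * (u - k)) := by
    intro h
    have h3 : (h : ℝ) * u = h * (u - k) + ((h * k : ℤ) : ℝ) := by push_cast; ring
    rw [h3, e_add, e_int, mul_one]
  simp_rw [e1]
  refine kusmin_landau_mono (fun h => (h : ℝ) * (u - k)) H hθ ?_ ?_ ?_
  · intro n _
    push_cast
    linarith
  · intro n _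
    push_cast
    linarith
  · intro n _
    push_cast
    linarith

lemma sq_expand (u : ℝ) (H : ℕ) : ‖∑ h ∈ range H, e (h * u)‖ ^ 2 =
    ∑ h ∈ range H, ∑ h' ∈ range H, (e (((h : ℝ) - h') * u)).re := by
  have h1 : ((‖∑ h ∈ range H, e (h * u)‖ ^ 2 : ℝ) : ℂ) =
      ∑ h ∈ range H, ∑ h' ∈ range H, e (((h : ℝ) - h') * u) := by
    push_cast
    rw [← Complex.mul_conj', map_sum, sum_mul_sum]
    apply sum_congr rfl; intro h _
    apply sum_congr rfl; intro h' _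
    rw [conj_e, ← e_add]
    congr 1
    ring
  have h2 := congrArg Complex.re h1
  rw [Complex.ofReal_re] at h2
  rw [h2, Complex.re_sum]
  apply sum_congr rfl; intro h _
  rw [Complex.re_sum]

lemma detect (S : Finset ℕ) (Λ y : ℕ → ℝ) (H : ℕ) (B : ℝ) (hB0 : 0 ≤ B)
    (hB : ∀ j : ℕ, 1 ≤ j → j < H → ‖∑ n ∈ S, (Λ n : ℂ) * e (j * y n)‖ ≤ B) (x0 : ℝ) :
    (H : ℝ) * ∑ n ∈ S, Λ n - (H : ℝ) ^ 2 * B ≤
      ∑ n ∈ S, Λ n * ‖∑ h ∈ range H, e (h * (y n - x0))‖ ^ 2 := by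
  simp_rw [sq_expand, mul_sum]
  rw [sum_comm]
  have e1 : ∀ h ∈ range H, ∑ n ∈ S, ∑ h' ∈ range H, Λ n * (e (((h : ℝ) - h') * (y n - x0))).re =
      ∑ h' ∈ range H, ∑ n ∈ S, Λ n * (e (((h : ℝ) - h') * (y n - x0))).re := fun h _ => sum_comm
  rw [sum_congr rfl e1]
  have key : ∀ h ∈ range H, ∀ h' ∈ range H, (if h = h' then ∑ n ∈ S, Λ n else 0) - B ≤
      ∑ n ∈ S, Λ n * (e (((h : ℝ) - h') * (y n - x0))).re := by
    intro h hh h' hh'
    rw [mem_range] at hh hh'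
    have e2 : ∀ (v : ℕ → ℝ), ∑ n ∈ S, Λ n * (e (v n)).re = (∑ n ∈ S, (Λ n : ℂ) * e (v n)).re := by
      intro v
      rw [Complex.re_sum]
      apply sum_congr rfl; intro n _
      rw [Complex.re_ofReal_mul]
    rcases lt_trichotomy h h' with hlt | heq | hgt
    · rw [if_neg (by omega), e2]
      have h3 : ‖∑ n ∈ S, (Λ n : ℂ) * e (((h : ℝ) - h') * (y n - x0))‖ ≤ B := by
        have h4 : ∑ n ∈ S, (Λ n : ℂ) * e (((h : ℝ) - h') * (y n - x0)) =
            e (((h' : ℝ) - h) * x0) * (starRingEnd ℂ) (∑ n ∈ S, (Λ n : ℂ) * e (((h' - h : ℕ) : ℝ) * y n)) := by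
          rw [map_sum, mul_sum]
          apply sum_congr rfl; intro n _
          rw [map_mul, Complex.conj_ofReal, conj_e, mul_left_comm, ← e_add]
          congr 2
          rw [Nat.cast_sub hlt.le]
          ring
        rw [h4, norm_mul, norm_e, one_mul, Complex.norm_conj]
        exact hB _ (by omega) (by omega)
      have h5 := Complex.abs_re_le_norm (∑ n ∈ S, (Λ n : ℂ) * e (((h : ℝ) - h') * (y n - x0)))
      have h6 := neg_abs_le (∑ n ∈ S, (Λ n : ℂ) * e (((h : ℝ) - h') * (y n - x0))).re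
      linarith
    · subst heq
      rw [if_pos rfl]
      have h7 : ∑ n ∈ S, Λ n * (e (((h : ℝ) - h) * (y n - x0))).re = ∑ n ∈ S, Λ n := by
        apply sum_congr rfl; intro n _
        rw [sub_self, zero_mul, e_zero, Complex.one_re, mul_one]
      rw [h7]
      linarith
    · rw [if_neg (by omega), e2]
      have h3 : ‖∑ n ∈ S, (Λ n : ℂ) * e (((h : ℝ) - h') * (y n - x0))‖ ≤ B := by
        have h4 : ∑ n ∈ S, (Λ n : ℂ) * e (((h : ℝ) - h') * (y n - x0)) =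
            e (((h' : ℝ) - h) * x0) * (∑ n ∈ S, (Λ n : ℂ) * e (((h - h' : ℕ) : ℝ) * y n)) := by
          rw [mul_sum]
          apply sum_congr rfl; intro n _
          rw [mul_left_comm, ← e_add]
          congr 2
          rw [Nat.cast_sub hgt.le]
          ring
        rw [h4, norm_mul, norm_e, one_mul]
        exact hB _ (by omega) (by omega)
      have h5 := Complex.abs_re_le_norm (∑ n ∈ S, (Λ n : ℂ) * e (((h : ℝ) - h') * (y n - x0)))
      have h6 := neg_abs_le (∑ n ∈ S, (Λ n : ℂ) * e (((h : ℝ) - h') * (y n - x0))).re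
      linarith
  refine le_trans (le_of_eq ?_) (sum_le_sum fun h hh => sum_le_sum fun h' hh' => key h hh h' hh')
  have e3 : ∀ h ∈ range H, ∑ h' ∈ range H, ((if h = h' then ∑ n ∈ S, Λ n else 0) - B) =
      (∑ n ∈ S, Λ n) - H * B := by
    intro h hh
    rw [sum_sub_distrib, sum_ite_eq, if_pos hh, sum_const, card_range, nsmul_eq_mul]
  rw [sum_congr rfl e3, sum_const, card_range, nsmul_eq_mul, ← mul_sum]
  ring

/-- The mass of the `n` for which `y n` has fractional part in `(β/4, 3β/4)`. -/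
theorem detect_main (S : Finset ℕ) (Λ y : ℕ → ℝ) (hΛ : ∀ n, 0 ≤ Λ n) (H : ℕ) (hH : 1 ≤ H) (B : ℝ) (hB0 : 0 ≤ B)
    (hB : ∀ j : ℕ, 1 ≤ j → j < H → ‖∑ n ∈ S, (Λ n : ℂ) * e (j * y n)‖ ≤ B) (β : ℝ) (hβ : 0 < β) (hβ1 : β ≤ 1)
    (hHβ : 128 / β ^ 2 ≤ H) (P : ℕ → Prop) [DecidablePred P]
    (hP : ∀ n ∈ S, ∀ k : ℤ, (k : ℝ) + β / 4 < y n → y n < k + 3 * β / 4 → P n) :
    (∑ n ∈ S, Λ n) / (2 * H) - B ≤ ∑ n ∈ S.filter P, Λ n := by
  have h1 := detect S Λ y H B hB0 hB (β / 2)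
  have hH0 : (0 : ℝ) < H := by exact_mod_cast (by omega : 0 < H)
  have hψ : 0 ≤ ∑ n ∈ S, Λ n := sum_nonneg fun n _ => hΛ n
  have hF1 : ∀ n, ‖∑ h ∈ range H, e (h * (y n - β / 2))‖ ^ 2 ≤ (H : ℝ) ^ 2 := by
    intro n
    apply pow_le_pow_left₀ (norm_nonneg _)
    refine (norm_sum_le _ _).trans ?_
    simp_rw [norm_e]
    rw [sum_const, card_range, nsmul_eq_mul, mul_one]
  have hF2 : ∀ n ∈ S, ¬ P n → ‖∑ h ∈ range H, e (h * (y n - β / 2))‖ ^ 2 ≤ (H : ℝ) / 2 := by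
    intro n hn hPn
    have hg : ‖∑ h ∈ range H, e (h * (y n - β / 2))‖ ≤ 2 / (β / 4) := by
      have hfl := Int.floor_le (y n)
      have hfl2 := Int.lt_floor_add_one (y n)
      rcases le_or_gt (y n) ((⌊y n⌋ : ℝ) + β / 4) with hc | hc
      · refine geo _ (⌊y n⌋ - 1) (by positivity) ?_ ?_ H
        · push_cast; linarith
        · push_cast; linarith
      · have hc2 : (⌊y n⌋ : ℝ) + 3 * β / 4 ≤ y n := by
          by_contra hcon
          push Not at hcon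
          exact hPn (hP n hn _ hc hcon)
        refine geo _ ⌊y n⌋ (by positivity) ?_ ?_ H
        · linarith
        · linarith
    calc ‖∑ h ∈ range H, e (h * (y n - β / 2))‖ ^ 2 ≤ (2 / (β / 4)) ^ 2 := pow_le_pow_left₀ (norm_nonneg _) hg _
      _ = (128 / β ^ 2) / 2 := by field_simp; norm_num
      _ ≤ H / 2 := by linarith
  have h2 : ∑ n ∈ S, Λ n * ‖∑ h ∈ range H, e (h * (y n - β / 2))‖ ^ 2 ≤
      (H : ℝ) ^ 2 * ∑ n ∈ S.filter P, Λ n + (H : ℝ) / 2 * ∑ n ∈ S, Λ n := by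
    rw [← sum_filter_add_sum_filter_not S P]
    apply add_le_add
    · rw [mul_sum]
      apply sum_le_sum; intro n _
      rw [mul_comm]
      exact mul_le_mul_of_nonneg_right (hF1 n) (hΛ n)
    · have h3 : ∑ n ∈ S.filter (fun n => ¬ P n), Λ n ≤ ∑ n ∈ S, Λ n :=
        sum_le_sum_of_subset_of_nonneg (filter_subset _ _) (fun n _ _ => hΛ n)
      refine le_trans ?_ (mul_le_mul_of_nonneg_left h3 (by positivity))
      rw [mul_sum]
      apply sum_le_sum; intro n hn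
      rw [mem_filter] at hn
      rw [mul_comm]
      exact mul_le_mul_of_nonneg_right (hF2 n hn.1 hn.2) (hΛ n)
  have h4 : (H : ℝ) / 2 * ∑ n ∈ S, Λ n - (H : ℝ) ^ 2 * B ≤ (H : ℝ) ^ 2 * ∑ n ∈ S.filter P, Λ n := by linarith
  have h5 : (H : ℝ) ^ 2 * ((∑ n ∈ S, Λ n) / (2 * H) - B) ≤ (H : ℝ) ^ 2 * ∑ n ∈ S.filter P, Λ n := by
    refine le_trans (le_of_eq ?_) h4
    field_simp
  exact le_of_mul_le_mul_left h5 (by positivity)

end Pool.Agent.H428R3.SN
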