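import Mathlib

open Finset Filter Polynomial

namespace Pool.Agent.H428R3.SN

theorem poly_data (f : ℚ[X]) (hf : 0 < f.degree) (g : ℕ → ℕ)
    (hg : ∀ n : ℕ, 1 ≤ n → 1 ≤ g n ∧ ((g n : ℚ) = f.eval (n : ℚ))) :
    ∃ (D : ℕ) (a Cf : ℝ) (ng : ℕ), 0 < a ∧ 0 ≤ Cf ∧
      (∀ n : ℕ, 1 ≤ n → |(g n : ℝ) - a * (n : ℝ) ^ (D + 1)| ≤ Cf * (n : ℝ) ^ D) ∧
      (∀ n n' : ℕ, ng ≤ n → n ≤ n' → g n ≤ g n') := by
  set F : ℝ[X] := f.map (algebraMap ℚ ℝ) with hF
  have hgF : ∀ n : ℕ, 1 ≤ n → (g n : ℝ) = F.eval (n : ℝ) := by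
    intro n hn
    have h1 := (hg n hn).2
    rw [hF, Polynomial.eval_map, ← Polynomial.aeval_def]
    have h2 : Polynomial.aeval (n : ℝ) f = ((f.eval (n : ℚ) : ℚ) : ℝ) := by
      have h3 : (n : ℝ) = algebraMap ℚ ℝ (n : ℚ) := by simp
      rw [h3, Polynomial.aeval_algebraMap_apply, Polynomial.coe_aeval_eq_eval]
      simp
    rw [h2, ← h1]
    push_cast
    rfl
  have hnd : 0 < f.natDegree := Polynomial.natDegree_pos_iff_degree_pos.2 hf
  have hFd : F.natDegree = f.natDegree := Polynomial.natDegree_map _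
  obtain ⟨D, hD⟩ : ∃ D, F.natDegree = D + 1 := ⟨F.natDegree - 1, by omega⟩
  set a := F.coeff (D + 1) with ha
  have halead : a = F.leadingCoeff := by rw [ha, ← hD]; rfl
  have ha0 : a ≠ 0 := by
    rw [halead, Polynomial.leadingCoeff_ne_zero]
    intro h
    rw [h, Polynomial.natDegree_zero] at hD
    omega
  set Cf : ℝ := ∑ i ∈ range (D + 1), |F.coeff i| with hCf
  have hCf0 : 0 ≤ Cf := sum_nonneg fun _ _ => abs_nonneg _
  have hmain : ∀ n : ℕ, 1 ≤ n → |(g n : ℝ) - a * (n : ℝ) ^ (D + 1)| ≤ Cf * (n : ℝ) ^ D := by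
    intro n hn
    have hn1 : (1 : ℝ) ≤ n := by exact_mod_cast hn
    rw [hgF n hn, Polynomial.eval_eq_sum_range, hD, sum_range_succ, ← ha, add_sub_cancel_right, hCf, sum_mul]
    refine (abs_sum_le_sum_abs _ _).trans (sum_le_sum fun i hi => ?_)
    rw [mem_range] at hi
    rw [abs_mul, abs_of_nonneg (by positivity : (0 : ℝ) ≤ (n : ℝ) ^ i)]
    exact mul_le_mul_of_nonneg_left (pow_le_pow_right₀ hn1 (by omega)) (abs_nonneg _)
  have hapos : 0 < a := by
    by_contra hneg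
    have hneg' : a < 0 := lt_of_le_of_ne (not_lt.1 hneg) ha0
    obtain ⟨n, hn⟩ := exists_nat_gt (Cf / (-a))
    have hn0 : (0 : ℝ) < n := lt_of_le_of_lt (by
      apply div_nonneg hCf0; linarith) hn
    have hn1 : 1 ≤ n := by exact_mod_cast hn0
    have h1 := hmain n hn1
    rw [abs_le] at h1
    have h2 : (1 : ℝ) ≤ g n := by exact_mod_cast (hg n hn1).1
    rw [div_lt_iff₀ (by linarith)] at hn
    have h3 : (0 : ℝ) < (n : ℝ) ^ D := by positivity
    have h4 : a * (n : ℝ) ^ (D + 1) + Cf * (n : ℝ) ^ D = (n : ℝ) ^ D * (a * n + Cf) := by ring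
    have h5 : (n : ℝ) ^ D * (a * n + Cf) ≤ 0 := mul_nonpos_of_nonneg_of_nonpos h3.le (by linarith)
    linarith
  -- monotonicity
  have hder : ∀ᶠ x : ℝ in atTop, 0 ≤ (derivative F).eval x := by
    have hc : (derivative F).natDegree = D := by
      rw [Polynomial.natDegree_derivative, hD]; rfl
    have hl : (derivative F).leadingCoeff = a * (D + 1) := by
      rw [Polynomial.leadingCoeff, hc, Polynomial.coeff_derivative]
    rcases Nat.eq_zero_or_pos D with h0 | hpos
    · have h1 := Polynomial.eq_C_of_natDegree_eq_zero (hc.trans h0)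
      refine Filter.Eventually.of_forall fun x => ?_
      rw [h1, Polynomial.eval_C, Polynomial.coeff_derivative]
      have h2 : F.coeff (0 + 1) = a := by rw [ha, h0]
      rw [h2]
      positivity
    · have h1 := Polynomial.tendsto_atTop_of_leadingCoeff_nonneg (derivative F)
        (Polynomial.natDegree_pos_iff_degree_pos.1 (by omega)) (by rw [hl]; positivity)
      exact h1.eventually_ge_atTop 0
  rw [eventually_atTop] at hder
  obtain ⟨x0, hx0⟩ := hder
  have hmono : MonotoneOn (fun x => F.eval x) (Set.Ici x0) := by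
    apply monotoneOn_of_deriv_nonneg (convex_Ici x0)
    · exact F.continuous.continuousOn
    · exact F.differentiable.differentiableOn
    · intro x hx
      rw [interior_Ici, Set.mem_Ioi] at hx
      rw [Polynomial.deriv]
      exact hx0 x hx.le
  refine ⟨D, a, Cf, ⌈x0⌉₊ + 1, hapos, hCf0, hmain, ?_⟩
  intro n n' hn hnn
  have h1 : x0 ≤ (n : ℝ) := (Nat.le_ceil x0).trans (by exact_mod_cast (by omega : ⌈x0⌉₊ ≤ n))
  have h2 : (n : ℝ) ≤ n' := by exact_mod_cast hnn
  have h3 := hmono (Set.mem_Ici.2 h1) (Set.mem_Ici.2 (h1.trans h2)) h2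
  simp only at h3
  rw [← hgF n (by omega), ← hgF n' (by omega)] at h3
  exact_mod_cast h3

end Pool.Agent.H428R3.SN
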