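import Mathlib

/-!
Chebyshev type bounds: a dyadic block with large von Mangoldt mass, polylogarithmic bounds.
-/

open Finset Filter

namespace Pool.Agent.H428R3.SN

lemma polylog (C : ℝ) (hC : 0 < C) : ∃ T0 : ℕ, ∀ T : ℕ, T0 ≤ T →
    C * (1 + Real.log (8 * (T : ℝ) ^ 100)) ^ 6 ≤ T := by
  have h1 := (Real.isLittleO_pow_log_id_atTop (n := 6)).bound (c := 1 / (C * 102 ^ 6)) (by positivity)
  have h2 := tendsto_natCast_atTop_atTop (R := ℝ) |>.eventually h1
  rw [eventually_atTop] at h2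
  obtain ⟨T1, hT1⟩ := h2
  refine ⟨max T1 8, fun T hT => ?_⟩
  have hT8 : 8 ≤ T := le_trans (le_max_right _ _) hT
  have hT8' : (8 : ℝ) ≤ T := by exact_mod_cast hT8
  have h3 := hT1 T (le_trans (le_max_left _ _) hT)
  simp only [id] at h3
  rw [Real.norm_of_nonneg (by positivity : (0 : ℝ) ≤ (T : ℝ))] at h3
  have h4 : Real.log (T : ℝ) ^ 6 ≤ 1 / (C * 102 ^ 6) * T := le_trans (Real.le_norm_self _) h3
  have hlog8 : (2 : ℝ) ≤ Real.log 8 := by
    have : (8 : ℝ) = 2 ^ 3 := by norm_num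
    rw [this, Real.log_pow]
    have := Real.log_two_gt_d9
    push_cast
    linarith
  have hlogT : Real.log 8 ≤ Real.log T := Real.log_le_log (by norm_num) hT8'
  have h5 : 1 + Real.log (8 * (T : ℝ) ^ 100) ≤ 102 * Real.log T := by
    rw [Real.log_mul (by norm_num) (by positivity), Real.log_pow]
    push_cast
    linarith
  have h6 : 0 ≤ 1 + Real.log (8 * (T : ℝ) ^ 100) := by
    have : 0 ≤ Real.log (8 * (T : ℝ) ^ 100) := by
      apply Real.log_nonneg
      have : (1 : ℝ) ≤ (T : ℝ) ^ 100 := one_le_pow₀ (by linarith)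
      linarith
    linarith
  calc C * (1 + Real.log (8 * (T : ℝ) ^ 100)) ^ 6 ≤ C * (102 * Real.log T) ^ 6 := by gcongr
    _ = C * 102 ^ 6 * Real.log T ^ 6 := by rw [mul_pow]; ring
    _ ≤ C * 102 ^ 6 * (1 / (C * 102 ^ 6) * T) := by gcongr
    _ = T := by field_simp

lemma psi_diff (m n : ℕ) (h : m ≤ n) : Chebyshev.psi n - Chebyshev.psi m =
    ∑ k ∈ Ioc m n, ArithmeticFunction.vonMangoldt k := by
  unfold Chebyshev.psi
  rw [Nat.floor_natCast, Nat.floor_natCast, sub_eq_iff_eq_add, add_comm,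
    ← sum_union (by
      rw [disjoint_left]; intro x hx hx'
      rw [mem_Ioc] at hx hx'
      omega)]
  congr 1
  ext x
  simp only [mem_union, mem_Ioc]
  omega

lemma mass : ∃ X0 : ℕ, ∀ X : ℕ, X0 ≤ X → ∃ N : ℕ, (N = X ∨ N = 2 * X) ∧
    (N : ℝ) / 4 ≤ ∑ n ∈ Ioc N (2 * N), ArithmeticFunction.vonMangoldt n := by
  have h1 := (Real.isLittleO_pow_log_id_atTop (n := 2)).bound (c := 1 / 400) (by positivity)
  have h2 := tendsto_natCast_atTop_atTop (R := ℝ) |>.eventually h1
  rw [eventually_atTop] at h2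
  obtain ⟨T1, hT1⟩ := h2
  refine ⟨max T1 100, fun X hX => ?_⟩
  have hX8 : 100 ≤ X := le_trans (le_max_right _ _) hX
  have hX8' : (100 : ℝ) ≤ X := by exact_mod_cast hX8
  have h3 := hT1 X (le_trans (le_max_left _ _) hX)
  simp only [id] at h3
  rw [Real.norm_of_nonneg (by positivity : (0 : ℝ) ≤ (X : ℝ))] at h3
  have h4 : Real.log (X : ℝ) ^ 2 ≤ 1 / 400 * X := le_trans (Real.le_norm_self _) h3
  have hl0 : 0 ≤ Real.log (X : ℝ) := Real.log_nonneg (by linarith)
  -- sqrt X * log X ≤ X / 20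
  have h5 : Real.sqrt X * Real.log X ≤ X / 20 := by
    have h6 : Real.log (X : ℝ) ≤ Real.sqrt X / 20 := by
      have h7 : Real.log (X : ℝ) ≤ Real.sqrt (X / 400) := by
        rw [Real.le_sqrt hl0 (by positivity)]
        linarith
      refine h7.trans (le_of_eq ?_)
      rw [Real.sqrt_div (by positivity)]
      congr 1
      rw [show (400 : ℝ) = 20 ^ 2 by norm_num, Real.sqrt_sq (by norm_num)]
    calc Real.sqrt X * Real.log X ≤ Real.sqrt X * (Real.sqrt X / 20) := by gcongr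
      _ = (Real.sqrt X * Real.sqrt X) / 20 := by ring
      _ = X / 20 := by rw [Real.mul_self_sqrt (by positivity)]
  have hlogX : Real.log (X : ℝ) ≤ X / 20 := by
    have h6 : 1 ≤ Real.sqrt (X : ℝ) := Real.one_le_sqrt.2 (by linarith)
    nlinarith
  have hge := Chebyshev.psi_ge (4 * X)
  have hle := Chebyshev.psi_le (x := (X : ℝ)) (by linarith)
  have hlog4 : Real.log 4 = 2 * Real.log 2 := by
    rw [show (4 : ℝ) = 2 ^ 2 by norm_num, Real.log_pow]; norm_num
  have hlog4X : Real.log (((4 * X : ℕ) : ℝ) + 1) ≤ 2 * Real.log 2 + 1 + Real.log X := by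
    have h8 : Real.log (((4 * X : ℕ) : ℝ) + 1) ≤ Real.log (8 * X) := by
      apply Real.log_le_log (by positivity)
      push_cast
      linarith
    rw [Real.log_mul (by norm_num) (by positivity), show (8 : ℝ) = 2 ^ 3 by norm_num, Real.log_pow] at h8
    have := Real.log_two_lt_d9
    push_cast at h8 ⊢
    linarith
  have hl2 := Real.log_two_gt_d9
  have hl2' := Real.log_two_lt_d9
  have hdiff : (X : ℝ) ≤ Chebyshev.psi ((4 * X : ℕ) : ℝ) - Chebyshev.psi (X : ℝ) := by
    push_cast at hge ⊢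
    rw [hlog4] at hle
    push_cast at hlog4X
    nlinarith
  have hsplit : Chebyshev.psi ((4 * X : ℕ) : ℝ) - Chebyshev.psi (X : ℝ) =
      ∑ n ∈ Ioc X (2 * X), ArithmeticFunction.vonMangoldt n +
      ∑ n ∈ Ioc (2 * X) (2 * (2 * X)), ArithmeticFunction.vonMangoldt n := by
    rw [← psi_diff X (2 * X) (by omega), ← psi_diff (2 * X) (2 * (2 * X)) (by omega)]
    rw [show 2 * (2 * X) = 4 * X by ring]
    ring
  rcases le_or_gt ((X : ℝ) / 2) (∑ n ∈ Ioc X (2 * X), ArithmeticFunction.vonMangoldt n) with hc | hc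
  · refine ⟨X, Or.inl rfl, ?_⟩
    linarith
  · refine ⟨2 * X, Or.inr rfl, ?_⟩
    push_cast
    linarith

lemma nonprime_mass (N : ℕ) (hN : 1 ≤ N) (S : Finset ℕ) (hS : S ⊆ Ioc 0 N) :
    ∑ n ∈ S.filter (fun n => ¬ n.Prime), ArithmeticFunction.vonMangoldt n ≤
      2 * Real.sqrt N * Real.log N := by
  have h1 := Chebyshev.psi_sub_theta_le (x := (N : ℝ)) (by exact_mod_cast hN)
  rw [Chebyshev.psi_sub_theta_eq_sum_not_prime, Nat.floor_natCast] at h1
  refine le_trans ?_ h1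
  apply sum_le_sum_of_subset_of_nonneg
  · exact filter_subset_filter _ hS
  · intro n _ _
    exact ArithmeticFunction.vonMangoldt_nonneg

end Pool.Agent.H428R3.SN
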