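import Mathlib
import Pool.Agent.H373R2.T7.Vau
import Pool.Agent.H373R2.T3.TypeII

/-!
Kusmin-Landau for the phases `c n ^ D` with small derivative.
-/

open Finset

namespace Pool.Agent.H428R3.SN

open Pool.Agent.H469R2.NK (e norm_e e_add conj_e norm_sum_neg kusmin_landau_mono)

/-- two sided bound for differences of powers -/
lemma pow_diff (D : ℕ) {y z : ℝ} (hy : 0 ≤ y) (hyz : y ≤ z) :
    (z - y) * y ^ D ≤ z ^ (D + 1) - y ^ (D + 1) ∧
      z ^ (D + 1) - y ^ (D + 1) ≤ (D + 1 : ℝ) * (z - y) * z ^ D := by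
  have hz : 0 ≤ z := hy.trans hyz
  have hd : 0 ≤ z - y := by linarith
  induction D with
  | zero => constructor <;> simp
  | succ D ih =>
    have e1 : z ^ (D + 1 + 1) - y ^ (D + 1 + 1) = z * (z ^ (D + 1) - y ^ (D + 1)) + (z - y) * y ^ (D + 1) := by ring
    have h2 : 0 ≤ z ^ (D + 1) - y ^ (D + 1) := le_trans (by positivity) ih.1
    have h3 : y ^ (D + 1) ≤ z ^ (D + 1) := pow_le_pow_left₀ hy hyz _
    constructor
    · rw [e1]
      have := mul_nonneg hz h2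
      linarith
    · rw [e1]
      have h4 : z * (z ^ (D + 1) - y ^ (D + 1)) ≤ z * ((D + 1 : ℝ) * (z - y) * z ^ D) :=
        mul_le_mul_of_nonneg_left ih.2 hz
      have h5 : (z - y) * y ^ (D + 1) ≤ (z - y) * z ^ (D + 1) := mul_le_mul_of_nonneg_left h3 hd
      push_cast
      calc z * (z ^ (D + 1) - y ^ (D + 1)) + (z - y) * y ^ (D + 1)
          ≤ z * ((D + 1 : ℝ) * (z - y) * z ^ D) + (z - y) * z ^ (D + 1) := add_le_add h4 h5
        _ = _ := by ring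

/-- the first differences of a power are monotone -/
lemma diff_mono (D : ℕ) {y z : ℝ} (hy : 0 ≤ y) (hyz : y ≤ z) :
    (y + 1) ^ (D + 1) - y ^ (D + 1) ≤ (z + 1) ^ (D + 1) - z ^ (D + 1) := by
  have hz : 0 ≤ z := hy.trans hyz
  induction D with
  | zero => simp
  | succ D ih =>
    have e1 : ∀ x : ℝ, (x + 1) ^ (D + 1 + 1) - x ^ (D + 1 + 1) =
        (x + 1) * ((x + 1) ^ (D + 1) - x ^ (D + 1)) + x ^ (D + 1) := fun x => by ring
    rw [e1 y, e1 z]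
    have h1 : 0 ≤ (y + 1) ^ (D + 1) - y ^ (D + 1) := by
      have := pow_le_pow_left₀ hy (by linarith : y ≤ y + 1) (D + 1)
      linarith
    have h3 : y ^ (D + 1) ≤ z ^ (D + 1) := pow_le_pow_left₀ hy hyz _
    have h4 : (y + 1) * ((y + 1) ^ (D + 1) - y ^ (D + 1)) ≤ (z + 1) * ((z + 1) ^ (D + 1) - z ^ (D + 1)) :=
      mul_le_mul (by linarith) ih h1 (by linarith)
    linarith

theorem kl_pow (D : ℕ) (c : ℝ) (hc : 0 < c) (M a b : ℕ) (hM : 1 ≤ M) (ha : M ≤ a + 1)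
    (hb : b ≤ 4 * M) (hcM : c * ((D + 1 : ℝ) * (5 * M) ^ D) ≤ 1 / 2) :
    ‖∑ n ∈ Ioc a b, e (c * (n : ℝ) ^ (D + 1))‖ ≤ 2 / (c * (M : ℝ) ^ D) := by
  have hM0 : (1 : ℝ) ≤ M := by exact_mod_cast hM
  have hMp : 0 < (M : ℝ) ^ D := by positivity
  set θ : ℝ := c * (M : ℝ) ^ D with hθ
  have hθ0 : 0 < θ := by positivity
  have hθ1 : θ ≤ 1 / 2 := by
    refine le_trans ?_ hcM
    rw [hθ]
    apply mul_le_mul_of_nonneg_left _ hc.le
    have h1 : (M : ℝ) ^ D ≤ (5 * M) ^ D := pow_le_pow_left₀ (by positivity) (by linarith) _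
    have h2 : (0 : ℝ) ≤ D := Nat.cast_nonneg _
    nlinarith
  rcases Nat.lt_or_ge a b with hab | hab
  · have e1 : ∑ n ∈ Ioc a b, e (c * (n : ℝ) ^ (D + 1)) =
        ∑ n ∈ range (b - a), e (c * ((a + 1 + n : ℕ) : ℝ) ^ (D + 1)) := by
      have h3 : Ioc a b = Ico (a + 1) (b + 1) := by ext n; simp only [mem_Ioc, mem_Ico]; omega
      rw [h3, sum_Ico_eq_sum_range]
      congr 1
      congr 1
      omega
    rw [e1]
    refine (kusmin_landau_mono (fun n => c * ((a + 1 + n : ℕ) : ℝ) ^ (D + 1)) (b - a) hθ0 ?_ ?_ ?_)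
    · intro n hn
      have h1 := (pow_diff D (y := ((a + 1 + n : ℕ) : ℝ)) (z := ((a + 1 + (n + 1) : ℕ) : ℝ)) (Nat.cast_nonneg _)
        (by exact_mod_cast (by omega : a + 1 + n ≤ a + 1 + (n + 1)))).1
      have h2 : ((a + 1 + (n + 1) : ℕ) : ℝ) - ((a + 1 + n : ℕ) : ℝ) = 1 := by push_cast; ring
      rw [h2, one_mul] at h1
      have h3 : (M : ℝ) ^ D ≤ ((a + 1 + n : ℕ) : ℝ) ^ D :=
        pow_le_pow_left₀ (by positivity) (by exact_mod_cast (by omega : M ≤ a + 1 + n)) _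
      rw [hθ, ← mul_sub]
      exact mul_le_mul_of_nonneg_left (h3.trans h1) hc.le
    · intro n hn
      have h1 := (pow_diff D (y := ((a + 1 + n : ℕ) : ℝ)) (z := ((a + 1 + (n + 1) : ℕ) : ℝ)) (Nat.cast_nonneg _)
        (by exact_mod_cast (by omega : a + 1 + n ≤ a + 1 + (n + 1)))).2
      have h2 : ((a + 1 + (n + 1) : ℕ) : ℝ) - ((a + 1 + n : ℕ) : ℝ) = 1 := by push_cast; ring
      rw [h2, mul_one] at h1
      have h3 : ((a + 1 + (n + 1) : ℕ) : ℝ) ^ D ≤ (5 * M) ^ D :=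
        pow_le_pow_left₀ (Nat.cast_nonneg _) (by exact_mod_cast (by omega : a + 1 + (n + 1) ≤ 5 * M)) _
      rw [← mul_sub]
      have h4 : c * (((a + 1 + (n + 1) : ℕ) : ℝ) ^ (D + 1) - ((a + 1 + n : ℕ) : ℝ) ^ (D + 1)) ≤
          c * ((D + 1 : ℝ) * (5 * M) ^ D) := by
        apply mul_le_mul_of_nonneg_left _ hc.le
        refine h1.trans ?_
        apply mul_le_mul_of_nonneg_left h3 (by positivity)
      linarith
    · intro n hn
      rw [← mul_sub, ← mul_sub]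
      apply mul_le_mul_of_nonneg_left _ hc.le
      have h1 := diff_mono D (y := ((a + 1 + n : ℕ) : ℝ)) (z := ((a + 1 + (n + 1) : ℕ) : ℝ)) (Nat.cast_nonneg _)
        (by exact_mod_cast (by omega : a + 1 + n ≤ a + 1 + (n + 1)))
      have h2 : ((a + 1 + n : ℕ) : ℝ) + 1 = ((a + 1 + (n + 1) : ℕ) : ℝ) := by push_cast; ring
      have h3 : ((a + 1 + (n + 1) : ℕ) : ℝ) + 1 = ((a + 1 + (n + 2) : ℕ) : ℝ) := by push_cast; ring
      rw [h2, h3] at h1
      exact h1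
  · rw [Ioc_eq_empty (by omega), sum_empty, norm_zero]
    positivity

/-- Type I sums -/
lemma inner_pow (D : ℕ) (lam : ℝ) (hl : 0 < lam) (N N' m : ℕ) (hm : 1 ≤ m) (hmN : m ≤ N) (hN' : N' ≤ 2 * N)
    (hcond : lam * (N : ℝ) ^ D * m * ((D + 1 : ℝ) * 5 ^ D) ≤ 1 / 2) (b : ℕ) (hb : b ≤ N' / m) :
    ‖∑ l ∈ Ioc (N / m) b, e (lam * ((m * l : ℕ) : ℝ) ^ (D + 1))‖ ≤
      2 ^ (D + 1) / (lam * (N : ℝ) ^ D) * (1 / m) := by
  have hm0 : (0 : ℝ) < m := by exact_mod_cast hm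
  have hN0 : (0 : ℝ) < N := by exact_mod_cast (by omega : 0 < N)
  set M := N / m with hM
  have hM1 : 1 ≤ M := Nat.div_pos hmN hm
  have hMle : M * m ≤ N := Nat.div_mul_le_self N m
  have hMge : N < (M + 1) * m := by
    have := Nat.lt_div_mul_add (a := N) (by omega : 0 < m)
    rw [hM]; linarith
  have hb4 : b ≤ 4 * M := by
    have h1 : N' / m ≤ 2 * N / m := Nat.div_le_div_right hN'
    have h2 : 2 * N / m < 2 * (M + 1) := by
      rw [Nat.div_lt_iff_lt_mul (by omega)]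
      nlinarith
    omega
  have e1 : ∀ l : ℕ, lam * ((m * l : ℕ) : ℝ) ^ (D + 1) = (lam * (m : ℝ) ^ (D + 1)) * (l : ℝ) ^ (D + 1) := by
    intro l; push_cast; rw [mul_pow]; ring
  simp_rw [e1]
  have hMr : (M : ℝ) * m ≤ N := by exact_mod_cast hMle
  have hMr2 : (N : ℝ) ≤ 2 * (M * m) := by
    have h1 : (N : ℝ) ≤ ((M + 1) * m : ℕ) := by exact_mod_cast hMge.le
    have h2 : ((M + 1) * m : ℕ) ≤ 2 * (M * m) := by nlinarith
    have h3 : (((M + 1) * m : ℕ) : ℝ) ≤ ((2 * (M * m) : ℕ) : ℝ) := by exact_mod_cast h2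
    push_cast at h1 h3
    linarith
  have hM0 : (1 : ℝ) ≤ M := by exact_mod_cast hM1
  refine (kl_pow D (lam * (m : ℝ) ^ (D + 1)) (by positivity) M M b hM1 (by omega) hb4 ?_).trans ?_
  · refine le_trans ?_ hcond
    have h1 : ((M : ℝ) * m) ^ D ≤ (N : ℝ) ^ D := pow_le_pow_left₀ (by positivity) hMr _
    calc lam * (m : ℝ) ^ (D + 1) * ((D + 1 : ℝ) * (5 * M) ^ D) =
        (lam * m * ((D + 1 : ℝ) * 5 ^ D)) * ((M : ℝ) * m) ^ D := by
          rw [mul_pow, mul_pow, pow_succ]; ring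
      _ ≤ (lam * m * ((D + 1 : ℝ) * 5 ^ D)) * (N : ℝ) ^ D := mul_le_mul_of_nonneg_left h1 (by positivity)
      _ = _ := by ring
  · rw [div_mul_div_comm, mul_one, div_le_div_iff₀ (by positivity) (by positivity)]
    have h1 : (N : ℝ) ^ D ≤ 2 ^ D * ((M : ℝ) * m) ^ D := by
      rw [← mul_pow]
      exact pow_le_pow_left₀ hN0.le hMr2 _
    calc 2 * (lam * (N : ℝ) ^ D * m) ≤ 2 * (lam * (2 ^ D * ((M : ℝ) * m) ^ D) * m) := by gcongr
      _ = 2 ^ (D + 1) * (lam * (m : ℝ) ^ (D + 1) * (M : ℝ) ^ D) := by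
          rw [mul_pow, pow_succ, pow_succ]; ring

end Pool.Agent.H428R3.SN
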