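import Mathlib
import Pool.Agent.H428R3.SN.Kl

/-!
Type II sums for the phases `lam n ^ (D+1)` with small derivative.
-/

open Finset

namespace Pool.Agent.H428R3.SN

open Pool.Agent.H469R2.NK (e norm_e e_add conj_e norm_sum_neg kusmin_landau_mono)
open Pool.Agent.H373R2.T3 (bilin sum_inv_dist)

lemma col (D : ℕ) (lam : ℝ) (hlam : 0 < lam) (N N' M L l l' : ℕ) (hM : 1 ≤ M) (hL : 1 ≤ L)
    (hN : 1 ≤ N) (hML : N ≤ 4 * (M * L)) (hML2 : M * L ≤ 2 * N)
    (hl : L ≤ l ∧ l ≤ 2 * L) (hl' : L ≤ l' ∧ l' ≤ 2 * L) (hlt : l' < l)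
    (hcond : lam * (N : ℝ) ^ D * L * ((D + 1 : ℝ) ^ 2 * 20 ^ D) ≤ 1 / 2) :
    ‖∑ m ∈ (Ioc M (2 * M)).filter (fun m => (N < m * l ∧ m * l ≤ N') ∧ (N < m * l' ∧ m * l' ≤ N')),
      e (lam * ((l : ℝ) ^ (D + 1) - (l' : ℝ) ^ (D + 1)) * (m : ℝ) ^ (D + 1))‖ ≤
      2 * 4 ^ D / (lam * (N : ℝ) ^ D) * (1 / |(l : ℝ) - l'|) := by
  have hM0 : (1 : ℝ) ≤ M := by exact_mod_cast hM
  have hL0 : (1 : ℝ) ≤ L := by exact_mod_cast hL
  have hN0 : (1 : ℝ) ≤ N := by exact_mod_cast hN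
  have hl'0 : (L : ℝ) ≤ l' := by exact_mod_cast hl'.1
  have hl2 : (l : ℝ) ≤ 2 * L := by exact_mod_cast hl.2
  have hll : (l' : ℝ) < l := by exact_mod_cast hlt
  have hdiff0 : (0 : ℝ) < (l : ℝ) - l' := by linarith
  have hMLr : (N : ℝ) ≤ 4 * (M * L) := by exact_mod_cast hML
  have hMLr2 : (M : ℝ) * L ≤ 2 * N := by exact_mod_cast hML2
  obtain ⟨hd1, hd2⟩ := pow_diff D (y := (l' : ℝ)) (z := (l : ℝ)) (by linarith) hll.le
  have hlow : ((l : ℝ) - l') * (L : ℝ) ^ D ≤ (l : ℝ) ^ (D + 1) - (l' : ℝ) ^ (D + 1) := by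
    refine le_trans ?_ hd1
    apply mul_le_mul_of_nonneg_left _ hdiff0.le
    exact pow_le_pow_left₀ (by linarith) hl'0 _
  have hup : (l : ℝ) ^ (D + 1) - (l' : ℝ) ^ (D + 1) ≤ (D + 1 : ℝ) * L * (2 * L) ^ D := by
    refine hd2.trans ?_
    have h1 : (l : ℝ) - l' ≤ L := by linarith
    have h2 : (l : ℝ) ^ D ≤ (2 * L) ^ D := pow_le_pow_left₀ (by linarith) hl2 _
    have h3 : (0 : ℝ) ≤ (D : ℝ) + 1 := by positivity
    exact mul_le_mul (mul_le_mul_of_nonneg_left h1 h3) h2 (by positivity) (by positivity)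
  set c : ℝ := lam * ((l : ℝ) ^ (D + 1) - (l' : ℝ) ^ (D + 1)) with hc
  have hcl : lam * (((l : ℝ) - l') * (L : ℝ) ^ D) ≤ c := mul_le_mul_of_nonneg_left hlow hlam.le
  have hc0 : 0 < c := lt_of_lt_of_le (by positivity) hcl
  have hkl : c * ((D + 1 : ℝ) * (5 * M) ^ D) ≤ 1 / 2 := by
    refine le_trans ?_ hcond
    have h1 : ((M : ℝ) * L) ^ D ≤ (2 * N) ^ D := pow_le_pow_left₀ (by positivity) hMLr2 _
    calc c * ((D + 1 : ℝ) * (5 * M) ^ D) ≤ lam * ((D + 1 : ℝ) * L * (2 * L) ^ D) * ((D + 1 : ℝ) * (5 * M) ^ D) := by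
          apply mul_le_mul_of_nonneg_right _ (by positivity)
          exact mul_le_mul_of_nonneg_left hup hlam.le
      _ = lam * L * (D + 1 : ℝ) ^ 2 * 10 ^ D * ((M : ℝ) * L) ^ D := by
          have : (10 : ℝ) ^ D = 2 ^ D * 5 ^ D := by rw [← mul_pow]; norm_num
          rw [this, mul_pow, mul_pow, mul_pow]; ring
      _ ≤ lam * L * (D + 1 : ℝ) ^ 2 * 10 ^ D * (2 * N) ^ D := mul_le_mul_of_nonneg_left h1 (by positivity)
      _ = _ := by
          have : (20 : ℝ) ^ D = 2 ^ D * 10 ^ D := by rw [← mul_pow]; norm_num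
          rw [this, mul_pow]; ring
  have hset : (Ioc M (2 * M)).filter (fun m => (N < m * l ∧ m * l ≤ N') ∧ (N < m * l' ∧ m * l' ≤ N')) =
      Ioc (max M (max (N / l) (N / l'))) (min (2 * M) (min (N' / l) (N' / l'))) := by
    ext m
    simp only [mem_filter, mem_Ioc, max_lt_iff, le_min_iff]
    have hlpos : 0 < l := by omega
    have hl'pos : 0 < l' := by omega
    rw [Nat.div_lt_iff_lt_mul hlpos, Nat.div_lt_iff_lt_mul hl'pos, Nat.le_div_iff_mul_le hlpos, Nat.le_div_iff_mul_le hl'pos]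
    tauto
  rw [hset]
  have h2 := kl_pow D c hc0 M (max M (max (N / l) (N / l'))) (min (2 * M) (min (N' / l) (N' / l'))) hM
    (by have := le_max_left M (max (N / l) (N / l')); omega)
    (by have := min_le_left (2 * M) (min (N' / l) (N' / l')); omega) hkl
  refine h2.trans ?_
  rw [abs_of_pos hdiff0, div_mul_div_comm, mul_one, div_le_div_iff₀ (by positivity) (by positivity)]
  have h3 : (N : ℝ) ^ D ≤ 4 ^ D * ((M : ℝ) * L) ^ D := by
    rw [← mul_pow]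
    exact pow_le_pow_left₀ (by linarith) hMLr _
  calc 2 * (lam * (N : ℝ) ^ D * ((l : ℝ) - l')) ≤ 2 * (lam * (4 ^ D * ((M : ℝ) * L) ^ D) * ((l : ℝ) - l')) := by
        gcongr
    _ = 2 * 4 ^ D * ((lam * (((l : ℝ) - l') * (L : ℝ) ^ D)) * (M : ℝ) ^ D) := by rw [mul_pow]; ring
    _ ≤ 2 * 4 ^ D * (c * (M : ℝ) ^ D) := by gcongr

/-- bilinear sums -/
theorem typeII (D : ℕ) (lam : ℝ) (hlam : 0 < lam) (N N' M L : ℕ) (hN : 1 ≤ N) (hN' : N' ≤ 2 * N)
    (hM : 1 ≤ M) (hL : 1 ≤ L) (hML2 : M * L ≤ N') (a b : ℕ → ℂ)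
    (hcond : lam * (N : ℝ) ^ D * L * ((D + 1 : ℝ) ^ 2 * 20 ^ D) ≤ 1 / 2) :
    ‖∑ m ∈ Ioc M (2 * M), ∑ l ∈ Ioc L (2 * L), a m * b l * (if N < m * l ∧ m * l ≤ N' then
      e (lam * ((m * l : ℕ) : ℝ) ^ (D + 1)) else 0)‖ ^ 2 ≤
      (∑ m ∈ Ioc M (2 * M), ‖a m‖ ^ 2) * ((∑ l ∈ Ioc L (2 * L), ‖b l‖ ^ 2) *
        (M + 4 * 4 ^ D / (lam * (N : ℝ) ^ D) * (1 + Real.log (2 * N + 1)))) := by
  classical
  set g : ℕ → ℕ → ℂ := fun m l => if N < m * l ∧ m * l ≤ N' then e (lam * ((m * l : ℕ) : ℝ) ^ (D + 1)) else 0 with hg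
  set T : ℝ := M + 4 * 4 ^ D / (lam * (N : ℝ) ^ D) * (1 + Real.log (2 * N + 1)) with hT
  have hM0 : (0 : ℝ) < M := by exact_mod_cast hM
  have hN0 : (1 : ℝ) ≤ N := by exact_mod_cast hN
  have hlogN : 0 ≤ Real.log (2 * (N : ℝ) + 1) := Real.log_nonneg (by linarith)
  have hlogN1 : 0 ≤ 1 + Real.log (2 * (N : ℝ) + 1) := by linarith
  have hT0 : 0 ≤ T := by
    rw [hT]
    exact add_nonneg hM0.le (mul_nonneg (by positivity) hlogN1)
  rcases Nat.lt_or_ge (4 * (M * L)) N with hsmall | hbig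
  · have hz : ∑ m ∈ Ioc M (2 * M), ∑ l ∈ Ioc L (2 * L), a m * b l * g m l = 0 := by
      apply sum_eq_zero; intro m hm
      apply sum_eq_zero; intro l hl
      rw [mem_Ioc] at hm hl
      have h1 : m * l ≤ 2 * M * (2 * L) := Nat.mul_le_mul hm.2 hl.2
      have h2 : ¬ (N < m * l ∧ m * l ≤ N') := by
        rintro ⟨h3, -⟩
        have : 2 * M * (2 * L) = 4 * (M * L) := by ring
        omega
      simp only [hg]
      rw [if_neg h2, mul_zero]
    rw [hz, norm_zero, zero_pow (by norm_num : (2 : ℕ) ≠ 0)]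
    exact mul_nonneg (sum_nonneg fun _ _ => by positivity)
      (mul_nonneg (sum_nonneg fun _ _ => by positivity) hT0)
  have hgg : ∀ m l l', g m l * (starRingEnd ℂ) (g m l') = if (N < m * l ∧ m * l ≤ N') ∧ (N < m * l' ∧ m * l' ≤ N') then
      e (lam * ((l : ℝ) ^ (D + 1) - (l' : ℝ) ^ (D + 1)) * (m : ℝ) ^ (D + 1)) else 0 := by
    intro m l l'
    simp only [hg]
    by_cases h2 : N < m * l ∧ m * l ≤ N'
    · by_cases h3 : N < m * l' ∧ m * l' ≤ N'
      · rw [if_pos h2, if_pos h3, if_pos ⟨h2, h3⟩, conj_e, ← e_add]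
        congr 1
        push_cast
        rw [mul_pow, mul_pow]
        ring
      · rw [if_neg h3, map_zero, mul_zero, if_neg (fun h => h3 h.2)]
    · rw [if_neg h2, zero_mul, if_neg (fun h => h2 h.1)]
  have hLm : ∀ l ∈ Ioc L (2 * L), L ≤ l ∧ l ≤ 2 * L := by
    intro l hl
    rw [mem_Ioc] at hl
    omega
  have hTl : ∀ l ∈ Ioc L (2 * L), ∑ l' ∈ Ioc L (2 * L), ‖∑ m ∈ Ioc M (2 * M), g m l * (starRingEnd ℂ) (g m l')‖ ≤ T := by
    intro l hl
    have hoff : ∀ l' ∈ (Ioc L (2 * L)).erase l, ‖∑ m ∈ Ioc M (2 * M), g m l * (starRingEnd ℂ) (g m l')‖ ≤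
        2 * 4 ^ D / (lam * (N : ℝ) ^ D) * (1 / |(l : ℝ) - l'|) := by
      intro l' hl'
      rw [mem_erase] at hl'
      simp_rw [hgg]
      rw [← sum_filter]
      rcases Nat.lt_or_gt_of_ne hl'.1 with h | h
      · exact col D lam hlam N N' M L l l' hM hL hN hbig (by omega) (hLm l hl) (hLm l' hl'.2) h hcond
      · have h2 := col D lam hlam N N' M L l' l hM hL hN hbig (by omega) (hLm l' hl'.2) (hLm l hl) h hcond
        rw [abs_sub_comm]
        refine le_trans (le_of_eq ?_) h2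
        have h3 : ∑ m ∈ (Ioc M (2 * M)).filter (fun m => (N < m * l' ∧ m * l' ≤ N') ∧ (N < m * l ∧ m * l ≤ N')),
            e (lam * ((l' : ℝ) ^ (D + 1) - (l : ℝ) ^ (D + 1)) * (m : ℝ) ^ (D + 1)) =
            (starRingEnd ℂ) (∑ m ∈ (Ioc M (2 * M)).filter
            (fun m => (N < m * l ∧ m * l ≤ N') ∧ (N < m * l' ∧ m * l' ≤ N')),
              e (lam * ((l : ℝ) ^ (D + 1) - (l' : ℝ) ^ (D + 1)) * (m : ℝ) ^ (D + 1))) := by
          rw [map_sum]
          apply sum_congr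
          · ext m; simp only [mem_filter]; tauto
          · intro m _
            rw [conj_e]; congr 1; ring
        rw [h3, Complex.norm_conj]
    have hdiag : ‖∑ m ∈ Ioc M (2 * M), g m l * (starRingEnd ℂ) (g m l)‖ ≤ M := by
      refine (norm_sum_le _ _).trans ?_
      calc ∑ m ∈ Ioc M (2 * M), ‖g m l * (starRingEnd ℂ) (g m l)‖ ≤ ∑ _m ∈ Ioc M (2 * M), (1 : ℝ) := by
            apply sum_le_sum; intro m _
            rw [hgg]
            split_ifs
            · rw [norm_e]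
            · rw [norm_zero]; norm_num
        _ = M := by
            rw [sum_const, Nat.card_Ioc, nsmul_eq_mul, mul_one]
            congr 1; omega
    rw [← add_sum_erase _ _ hl]
    have hsum := sum_inv_dist (Ioc L (2 * L)) L l (fun l' hl' => by
      rw [mem_Ioc] at hl hl'
      omega)
    have hLN : (L : ℝ) + 1 ≤ 2 * N + 1 := by
      have h1 : L ≤ M * L := Nat.le_mul_of_pos_left _ (by omega)
      have h2 : L ≤ 2 * N := by omega
      have h3 : (L : ℝ) ≤ 2 * N := by exact_mod_cast h2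
      linarith
    have hlogL : Real.log ((L : ℝ) + 1) ≤ Real.log (2 * N + 1) :=
      Real.log_le_log (by positivity) hLN
    calc _ ≤ (M : ℝ) + ∑ l' ∈ (Ioc L (2 * L)).erase l, 2 * 4 ^ D / (lam * (N : ℝ) ^ D) * (1 / |(l : ℝ) - l'|) :=
          add_le_add hdiag (sum_le_sum hoff)
      _ = M + 2 * 4 ^ D / (lam * (N : ℝ) ^ D) * ∑ l' ∈ (Ioc L (2 * L)).erase l, 1 / |(l : ℝ) - l'| := by rw [mul_sum]
      _ ≤ M + 2 * 4 ^ D / (lam * (N : ℝ) ^ D) * (2 * (1 + Real.log (L + 1))) := by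
          gcongr
      _ ≤ M + 2 * 4 ^ D / (lam * (N : ℝ) ^ D) * (2 * (1 + Real.log (2 * N + 1))) := by
          gcongr
      _ = T := by rw [hT]; ring
  exact bilin _ _ a b g T hTl

set_option maxHeartbeats 4000000 in
/-- The exponential sum over primes for a slowly varying monomial phase of total size
`Z = lam N ^ (D+1)`. -/
theorem exp_sum (D : ℕ) : ∃ C : ℝ, 0 < C ∧ ∀ N : ℕ, 1 ≤ N → ∀ lam : ℝ, 0 < lam →
    1 ≤ lam * (N : ℝ) ^ (D + 1) → C * (lam * (N : ℝ) ^ (D + 1)) ^ 3 ≤ N →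
    ‖∑ n ∈ Ioc N (2 * N), ((ArithmeticFunction.vonMangoldt n : ℝ) : ℂ) * e (lam * (n : ℝ) ^ (D + 1))‖ ≤
      C * (1 + Real.log (4 * N)) ^ 6 * N / Real.sqrt (lam * (N : ℝ) ^ (D + 1)) := by
  set K : ℝ := 8 * (D + 1 : ℝ) ^ 2 * 20 ^ D with hK
  have hK8 : 8 ≤ K := by
    have h1 : (1 : ℝ) ≤ (D + 1 : ℝ) ^ 2 := by
      have : (0 : ℝ) ≤ D := Nat.cast_nonneg _
      nlinarith
    have h2 : (1 : ℝ) ≤ 20 ^ D := one_le_pow₀ (by norm_num)
    nlinarith
  refine ⟨8 * K ^ 3 + 100 * 4 ^ D, by positivity, ?_⟩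
  intro N hN lam hlam hZ1 hZ3
  have hN0 : (1 : ℝ) ≤ N := by exact_mod_cast hN
  have hNpos : (0 : ℝ) < N := by linarith
  set Z : ℝ := lam * (N : ℝ) ^ (D + 1) with hZ
  have hZ0 : 0 < Z := by linarith
  set U : ℕ := ⌈K * Z⌉₊ with hU
  have hKZ1 : 1 ≤ K * Z := by nlinarith
  have hUge : K * Z ≤ U := Nat.le_ceil _
  have hUle : (U : ℝ) ≤ 2 * (K * Z) := by
    have := Nat.ceil_lt_add_one (show 0 ≤ K * Z by positivity)
    rw [← hU] at this
    linarith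
  have hU1 : 1 ≤ U := Nat.one_le_ceil_iff.2 (by linarith)
  have hU0 : (1 : ℝ) ≤ U := by exact_mod_cast hU1
  have hlamN : lam * (N : ℝ) ^ D = Z / N := by
    rw [hZ, pow_succ]; field_simp
  have hZZ : 1 ≤ Z ^ 2 := by nlinarith
  have hZ23 : Z ^ 2 ≤ Z ^ 3 := by nlinarith
  have hUU : (U : ℝ) * U ≤ N := by
    calc (U : ℝ) * U ≤ (2 * (K * Z)) * (2 * (K * Z)) := mul_le_mul hUle hUle (by positivity) (by positivity)
      _ = 4 * K ^ 2 * Z ^ 2 := by ring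
      _ ≤ 8 * K ^ 3 * Z ^ 3 := by
          apply mul_le_mul _ hZ23 (by positivity) (by positivity)
          nlinarith [sq_nonneg K]
      _ ≤ (8 * K ^ 3 + 100 * 4 ^ D) * Z ^ 3 := by
          apply mul_le_mul_of_nonneg_right _ (by positivity)
          have : (0 : ℝ) ≤ 100 * 4 ^ D := by positivity
          linarith
      _ ≤ N := hZ3
  have hUUn : U * U ≤ N := by exact_mod_cast hUU
  set Lg : ℝ := 1 + Real.log (4 * N) with hLg
  have hlog4N : 0 ≤ Real.log (4 * (N : ℝ)) := Real.log_nonneg (by linarith)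
  have hLg1 : 1 ≤ Lg := by linarith
  have hlog2 : 1 + Real.log (2 * N + 1) ≤ Lg := by
    have : Real.log (2 * (N : ℝ) + 1) ≤ Real.log (4 * N) := Real.log_le_log (by linarith) (by linarith)
    linarith
  have hlog20 : 0 ≤ 1 + Real.log (2 * (N : ℝ) + 1) := by
    have := Real.log_nonneg (show (1 : ℝ) ≤ 2 * N + 1 by linarith)
    linarith
  set R : ℝ := N * Real.sqrt ((8 + 8 * 4 ^ D) * Lg / Z) with hR
  have hR0 : 0 ≤ R := by positivity
  have hR2 : R ^ 2 = N ^ 2 * ((8 + 8 * 4 ^ D) * Lg / Z) := by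
    rw [hR, mul_pow, Real.sq_sqrt (by positivity)]
  set Y : ℕ → ℝ := fun m => 2 ^ (D + 1) / (lam * (N : ℝ) ^ D) * (1 / m) with hY
  have hY0 : ∀ m, 0 ≤ Y m := fun m => by simp only [hY]; positivity
  have hmain := Pool.Agent.H373R2.T7.vaughan_gen (fun n => e (lam * (n : ℝ) ^ (D + 1))) N (2 * N) U hN (by omega) le_rfl
    hU1 hUUn Y R hR0 hY0 (by
      intro m hm b hb
      rw [mem_Icc] at hm
      apply inner_pow D lam hlam N (2 * N) m hm.1 (hm.2.trans hUUn) le_rfl _ b hb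
      rw [hlamN]
      have hmr : (m : ℝ) ≤ U * U := by exact_mod_cast hm.2
      have h1 : (D + 1 : ℝ) * 5 ^ D ≤ K / 8 := by
        rw [hK]
        have h2 : (5 : ℝ) ^ D ≤ 20 ^ D := pow_le_pow_left₀ (by norm_num) (by norm_num) _
        have h3 : (D + 1 : ℝ) ≤ (D + 1 : ℝ) ^ 2 := by
          have : (0 : ℝ) ≤ D := Nat.cast_nonneg _
          nlinarith
        calc (D + 1 : ℝ) * 5 ^ D ≤ (D + 1 : ℝ) ^ 2 * 20 ^ D := mul_le_mul h3 h2 (by positivity) (by positivity)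
          _ = _ := by ring
      calc Z / N * m * ((D + 1 : ℝ) * 5 ^ D) ≤ Z / N * ((2 * (K * Z)) * (2 * (K * Z))) * (K / 8) := by
            have : (m : ℝ) ≤ (2 * (K * Z)) * (2 * (K * Z)) :=
              hmr.trans (mul_le_mul hUle hUle (by positivity) (by positivity))
            gcongr
        _ = (K ^ 3 * Z ^ 3) / (2 * N) := by field_simp; ring
        _ ≤ N / (2 * N) := by
            apply div_le_div_of_nonneg_right _ (by positivity)
            refine le_trans ?_ hZ3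
            apply mul_le_mul_of_nonneg_right _ (by positivity)
            have h5 : (0 : ℝ) ≤ 100 * 4 ^ D := by positivity
            have h6 : 0 ≤ K ^ 3 := by positivity
            linarith
        _ = 1 / 2 := by field_simp) (by
      intro a b A₂ B₂ hA hB M L hM hL hM2 hL2 hML ha hb
      have hM0 : (0 : ℝ) < M := by exact_mod_cast hM
      have hL0 : (0 : ℝ) < L := by exact_mod_cast hL
      have hMLr : (M : ℝ) * L ≤ 2 * N := by exact_mod_cast hML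
      have hM2r : (U : ℝ) ≤ 2 * M := by exact_mod_cast hM2.le
      have hL2r : (U : ℝ) ≤ 2 * L := by exact_mod_cast hL2.le
      have hLU : (L : ℝ) * U ≤ 4 * N := by nlinarith
      have hMU : (M : ℝ) * U ≤ 4 * N := by nlinarith
      have hcond : lam * (N : ℝ) ^ D * L * ((D + 1 : ℝ) ^ 2 * 20 ^ D) ≤ 1 / 2 := by
        rw [hlamN]
        have h1 : (D + 1 : ℝ) ^ 2 * 20 ^ D = K / 8 := by rw [hK]; ring
        rw [h1]
        have h2 : (L : ℝ) * (K * Z) ≤ 4 * N := le_trans (mul_le_mul_of_nonneg_left hUge hL0.le) hLU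
        calc Z / N * L * (K / 8) = (L * (K * Z)) / (8 * N) := by field_simp
          _ ≤ (4 * N) / (8 * N) := div_le_div_of_nonneg_right h2 (by positivity)
          _ = 1 / 2 := by field_simp; norm_num
      refine (typeII D lam hlam N (2 * N) M L hN le_rfl hM hL hML a b hcond).trans ?_
      rw [hlamN]
      have h3 : (M : ℝ) ≤ 4 * N / Z := by
        rw [le_div_iff₀ hZ0]
        have h4 : (M : ℝ) * Z ≤ M * U := by
          apply mul_le_mul_of_nonneg_left _ hM0.le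
          nlinarith
        linarith
      calc (∑ m ∈ Ioc M (2 * M), ‖a m‖ ^ 2) * ((∑ l ∈ Ioc L (2 * L), ‖b l‖ ^ 2) *
            (M + 4 * 4 ^ D / (Z / N) * (1 + Real.log (2 * N + 1))))
          ≤ (A₂ * M) * ((B₂ * L) * (4 * N / Z * Lg + 4 * 4 ^ D / (Z / N) * Lg)) := by
            have h5 : (M : ℝ) ≤ 4 * N / Z * Lg := by
              have h6 : 0 ≤ 4 * N / Z := by positivity
              nlinarith
            gcongr
        _ = A₂ * B₂ * (M * L) * ((4 + 4 * 4 ^ D) * N / Z * Lg) := by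
            field_simp
        _ ≤ A₂ * B₂ * (2 * N) * ((4 + 4 * 4 ^ D) * N / Z * Lg) := by
            gcongr
        _ = A₂ * B₂ * R ^ 2 := by rw [hR2]; ring)
  refine hmain.trans ?_
  have hsumY : ∑ m ∈ Icc 1 (U * U), Y m ≤ 2 ^ (D + 1) * N / Z * Lg := by
    simp only [hY]
    rw [← mul_sum, hlamN]
    have h1 := Pool.Agent.H373R2.T3.harm (U * U)
    have h2 : Real.log (((U * U : ℕ) : ℝ) + 1) ≤ Real.log (4 * N) := by
      apply Real.log_le_log (by positivity)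
      push_cast
      linarith
    calc 2 ^ (D + 1) / (Z / N) * ∑ m ∈ Icc 1 (U * U), (1 : ℝ) / m ≤ 2 ^ (D + 1) / (Z / N) * Lg := by
          apply mul_le_mul_of_nonneg_left _ (by positivity)
          linarith
      _ = _ := by field_simp
  have hs0 : 0 < Real.sqrt Z := Real.sqrt_pos.2 hZ0
  have hsZ : Real.sqrt Z * Real.sqrt Z = Z := Real.mul_self_sqrt hZ0.le
  have hs1 : 1 ≤ Real.sqrt Z := Real.one_le_sqrt.2 hZ1
  have hRle : R ≤ (4 * 2 ^ D) * Lg * N / Real.sqrt Z := by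
    rw [le_div_iff₀ hs0]
    have h1 : R * Real.sqrt Z = N * Real.sqrt ((8 + 8 * 4 ^ D) * Lg) := by
      rw [hR, mul_assoc, ← Real.sqrt_mul (by positivity)]
      congr 2
      field_simp
    rw [h1]
    have h2 : Real.sqrt ((8 + 8 * 4 ^ D) * Lg) ≤ (4 * 2 ^ D) * Lg := by
      rw [Real.sqrt_le_left (by positivity)]
      have h3 : (1 : ℝ) ≤ 4 ^ D := one_le_pow₀ (by norm_num)
      have h4 : ((4 * 2 ^ D) * Lg) ^ 2 = 16 * 4 ^ D * Lg ^ 2 := by
        have : (4 : ℝ) ^ D = 2 ^ D * 2 ^ D := by rw [← mul_pow]; norm_num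
        rw [this]; ring
      rw [h4]
      have h5 : Lg ≤ Lg ^ 2 := by nlinarith
      calc (8 + 8 * 4 ^ D) * Lg ≤ (16 * 4 ^ D) * Lg := by nlinarith
        _ ≤ 16 * 4 ^ D * Lg ^ 2 := mul_le_mul_of_nonneg_left h5 (by positivity)
    calc (N : ℝ) * Real.sqrt ((8 + 8 * 4 ^ D) * Lg) ≤ N * ((4 * 2 ^ D) * Lg) := by gcongr
      _ = _ := by ring
  have hYle : ∑ m ∈ Icc 1 (U * U), Y m ≤ 2 * 2 ^ D * Lg * N / Real.sqrt Z := by
    refine hsumY.trans ?_
    rw [div_mul_eq_mul_div, div_le_div_iff₀ hZ0 hs0]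
    have h1 : Real.sqrt Z ≤ Z := by nlinarith
    calc 2 ^ (D + 1) * N * Lg * Real.sqrt Z ≤ 2 ^ (D + 1) * N * Lg * Z := by gcongr
      _ = _ := by rw [pow_succ]; ring
  have h24 : (2 : ℝ) ^ D ≤ 4 ^ D := pow_le_pow_left₀ (by norm_num) (by norm_num) _
  have hX : 0 ≤ N / Real.sqrt Z := by positivity
  have hL2 : Lg ^ 2 ≤ Lg ^ 6 := pow_le_pow_right₀ hLg1 (by norm_num)
  calc 8 * Lg ^ 5 * R + 3 * Lg * ∑ m ∈ Icc 1 (U * U), Y m
      ≤ 8 * Lg ^ 5 * ((4 * 2 ^ D) * Lg * N / Real.sqrt Z) + 3 * Lg * (2 * 2 ^ D * Lg * N / Real.sqrt Z) := by gcongr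
    _ = (32 * 2 ^ D * Lg ^ 6 + 6 * 2 ^ D * Lg ^ 2) * (N / Real.sqrt Z) := by ring
    _ ≤ ((8 * K ^ 3 + 100 * 4 ^ D) * Lg ^ 6) * (N / Real.sqrt Z) := by
        apply mul_le_mul_of_nonneg_right _ hX
        have h7 : 0 ≤ 8 * K ^ 3 * Lg ^ 6 := by positivity
        have h8 : (0 : ℝ) ≤ 2 ^ D := by positivity
        have h9 : 0 ≤ Lg ^ 6 := by positivity
        nlinarith [mul_le_mul_of_nonneg_left hL2 h8, mul_le_mul_of_nonneg_right h24 h9]
    _ = _ := by ring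

end Pool.Agent.H428R3.SN
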