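import Mathlib
import Pool.Agent.H428R3.SN.TypeII
import Pool.Agent.H428R3.SN.Detect
import Pool.Agent.H428R3.SN.Mass

/-!
The mass of the integers whose polynomial value has a block of zeros at a prescribed place.
-/

open Finset

namespace Pool.Agent.H428R3.SN

open Pool.Agent.H469R2.NK (e norm_e e_add conj_e)

lemma div_of_window (P T G k : ℕ) (hT : 1 ≤ T) (hP : 1 ≤ P) (h1 : k * (P * T) ≤ G)
    (h2 : G < k * (P * T) + P) : G / P = (G / (P * T)) * T := by
  have h3 : G / P = k * T := by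
    apply Nat.div_eq_of_lt_le
    · calc k * T * P = k * (P * T) := by ring
        _ ≤ G := h1
    · calc G < k * (P * T) + P := h2
        _ = (k * T + 1) * P := by ring
  have h4 : G / (P * T) = k := by
    apply Nat.div_eq_of_lt_le h1
    calc G < k * (P * T) + P := h2
      _ ≤ k * (P * T) + P * T := by
          have : P ≤ P * T := Nat.le_mul_of_pos_right _ (by omega)
          omega
      _ = (k + 1) * (P * T) := by ring
  rw [h3, h4]

set_option maxHeartbeats 4000000 in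
theorem sset (D : ℕ) (a Cf : ℝ) (ha : 0 < a) (hCf : 0 ≤ Cf) (g : ℕ → ℕ)
    (hg : ∀ n : ℕ, 1 ≤ n → |(g n : ℝ) - a * (n : ℝ) ^ (D + 1)| ≤ Cf * (n : ℝ) ^ D) :
    ∃ T0 : ℕ, ∀ T : ℕ, T0 ≤ T → ∀ N : ℕ, (N = T ^ 100 ∨ N = 2 * T ^ 100) →
      (N : ℝ) / 4 ≤ ∑ n ∈ Ioc N (2 * N), ArithmeticFunction.vonMangoldt n →
      (N : ℝ) / (2048 * (T : ℝ) ^ 2) ≤
        ∑ n ∈ (Ioc N (2 * N)).filter (fun n => g n / T ^ (100 * D + 91) = (g n / T ^ (100 * D + 92)) * T),
          ArithmeticFunction.vonMangoldt n := by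
  obtain ⟨C, hC, hexp⟩ := exp_sum D
  obtain ⟨T1, hT1⟩ := polylog (C / Real.sqrt a) (by positivity)
  obtain ⟨T2, hT2⟩ := exists_nat_ge (1 / a)
  obtain ⟨T3, hT3⟩ := exists_nat_ge (C * (128 * a * 2 ^ (D + 1)) ^ 3)
  obtain ⟨T4, hT4⟩ := exists_nat_ge (16 * Cf * 4 ^ D)
  refine ⟨T1 + T2 + T3 + T4 + 2048, fun T hT N hN hmass => ?_⟩
  have hTr : (2048 : ℝ) ≤ T := by exact_mod_cast (by omega : 2048 ≤ T)
  have hTpos : (0 : ℝ) < T := by linarith
  have hTone : (1 : ℝ) ≤ T := by linarith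
  have hplog := hT1 T (by omega)
  have hTa : 1 / a ≤ T := hT2.trans (by exact_mod_cast (by omega : T2 ≤ T))
  have hTC : C * (128 * a * 2 ^ (D + 1)) ^ 3 ≤ T := hT3.trans (by exact_mod_cast (by omega : T3 ≤ T))
  have hTf : 16 * Cf * 4 ^ D ≤ T := hT4.trans (by exact_mod_cast (by omega : T4 ≤ T))
  have hTa1 : 1 ≤ a * T := by
    rw [div_le_iff₀ ha] at hTa
    linarith
  have hNlow : T ^ 100 ≤ N := by rcases hN with h | h <;> omega
  have hNup : N ≤ 2 * T ^ 100 := by rcases hN with h | h <;> omega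
  have hNlowr : (T : ℝ) ^ 100 ≤ N := by exact_mod_cast hNlow
  have hNupr : (N : ℝ) ≤ 2 * (T : ℝ) ^ 100 := by exact_mod_cast hNup
  have hT100 : (1 : ℝ) ≤ (T : ℝ) ^ 100 := one_le_pow₀ hTone
  have hN0 : (1 : ℝ) ≤ N := by linarith
  have hN1 : 1 ≤ N := by exact_mod_cast hN0
  set P : ℝ := (T : ℝ) ^ (100 * D + 91) with hP
  have hPpos : 0 < P := by positivity
  have hP92 : (T : ℝ) ^ (100 * D + 92) = P * T := by rw [hP, ← pow_succ]
  set y : ℕ → ℝ := fun n => (a / (P * T)) * (n : ℝ) ^ (D + 1) with hy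
  -- size of N^(D+1)
  have hpow1 : P * T * (T : ℝ) ^ 8 ≤ (N : ℝ) ^ (D + 1) := by
    calc P * T * (T : ℝ) ^ 8 = ((T : ℝ) ^ 100) ^ (D + 1) := by
          rw [← hP92, ← pow_add, ← pow_mul]
          congr 1
      _ ≤ (N : ℝ) ^ (D + 1) := pow_le_pow_left₀ (by positivity) hNlowr _
  have hpow2 : (N : ℝ) ^ (D + 1) ≤ 2 ^ (D + 1) * (P * T * (T : ℝ) ^ 8) := by
    calc (N : ℝ) ^ (D + 1) ≤ (2 * (T : ℝ) ^ 100) ^ (D + 1) := pow_le_pow_left₀ (by positivity) hNupr _
      _ = 2 ^ (D + 1) * (P * T * (T : ℝ) ^ 8) := by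
          rw [mul_pow, ← hP92, ← pow_add, ← pow_mul]
          congr 2
  have hB : ∀ j : ℕ, 1 ≤ j → j < 128 * T ^ 2 →
      ‖∑ n ∈ Ioc N (2 * N), ((ArithmeticFunction.vonMangoldt n : ℝ) : ℂ) * e (j * y n)‖ ≤ N / (T : ℝ) ^ 3 := by
    intro j hj1 hj2
    have hj1r : (1 : ℝ) ≤ j := by exact_mod_cast hj1
    have hj2r : (j : ℝ) ≤ 128 * (T : ℝ) ^ 2 := by exact_mod_cast hj2.le
    set lam : ℝ := j * (a / (P * T)) with hlam
    have hlam0 : 0 < lam := by positivity
    have e1 : ∀ n : ℕ, (j : ℝ) * y n = lam * (n : ℝ) ^ (D + 1) := by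
      intro n; simp only [hy, hlam]; ring
    simp_rw [e1]
    set Z : ℝ := lam * (N : ℝ) ^ (D + 1) with hZ
    have hZlow : a * (T : ℝ) ^ 8 ≤ Z := by
      calc a * (T : ℝ) ^ 8 = 1 * (a / (P * T)) * (P * T * (T : ℝ) ^ 8) := by field_simp
        _ ≤ j * (a / (P * T)) * (N : ℝ) ^ (D + 1) := by gcongr
    have hZup : Z ≤ (128 * a * 2 ^ (D + 1)) * (T : ℝ) ^ 10 := by
      calc Z ≤ (128 * (T : ℝ) ^ 2) * (a / (P * T)) * (2 ^ (D + 1) * (P * T * (T : ℝ) ^ 8)) := by
            rw [hZ, hlam]; gcongr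
        _ = _ := by field_simp
    have hZ1 : 1 ≤ Z := by
      refine le_trans ?_ hZlow
      calc (1 : ℝ) ≤ (a * T) * (T : ℝ) ^ 7 := by
            have : (1 : ℝ) ≤ (T : ℝ) ^ 7 := one_le_pow₀ hTone
            nlinarith
        _ = a * (T : ℝ) ^ 8 := by ring
    have hZ3 : C * Z ^ 3 ≤ N := by
      calc C * Z ^ 3 ≤ C * ((128 * a * 2 ^ (D + 1)) * (T : ℝ) ^ 10) ^ 3 := by gcongr
        _ = (C * (128 * a * 2 ^ (D + 1)) ^ 3) * (T : ℝ) ^ 30 := by ring
        _ ≤ T * (T : ℝ) ^ 30 := by gcongr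
        _ = (T : ℝ) ^ 31 := by ring
        _ ≤ (T : ℝ) ^ 100 := pow_le_pow_right₀ hTone (by norm_num)
        _ ≤ N := hNlowr
    refine (hexp N hN1 lam hlam0 hZ1 hZ3).trans ?_
    have hlog : 1 + Real.log (4 * N) ≤ 1 + Real.log (8 * (T : ℝ) ^ 100) := by
      have : Real.log (4 * (N : ℝ)) ≤ Real.log (8 * (T : ℝ) ^ 100) :=
        Real.log_le_log (by positivity) (by linarith)
      linarith
    have hlog0 : 0 ≤ 1 + Real.log (4 * (N : ℝ)) := by
      have := Real.log_nonneg (show (1 : ℝ) ≤ 4 * N by linarith)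
      linarith
    have hsq : Real.sqrt a * (T : ℝ) ^ 4 ≤ Real.sqrt Z := by
      have : Real.sqrt a * (T : ℝ) ^ 4 = Real.sqrt (a * (T : ℝ) ^ 8) := by
        rw [Real.sqrt_mul ha.le, show (T : ℝ) ^ 8 = ((T : ℝ) ^ 4) ^ 2 by ring, Real.sqrt_sq (by positivity)]
      rw [this]
      exact Real.sqrt_le_sqrt hZlow
    have hsa : 0 < Real.sqrt a := Real.sqrt_pos.2 ha
    calc C * (1 + Real.log (4 * N)) ^ 6 * N / Real.sqrt Z
        ≤ C * (1 + Real.log (8 * (T : ℝ) ^ 100)) ^ 6 * N / (Real.sqrt a * (T : ℝ) ^ 4) := by gcongr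
      _ = (C / Real.sqrt a * (1 + Real.log (8 * (T : ℝ) ^ 100)) ^ 6) * (N / (T : ℝ) ^ 4) := by
          field_simp
      _ ≤ T * (N / (T : ℝ) ^ 4) := by gcongr
      _ = N / (T : ℝ) ^ 3 := by field_simp
  have hdet := detect_main (Ioc N (2 * N)) (fun n => ArithmeticFunction.vonMangoldt n) y
    (fun n => ArithmeticFunction.vonMangoldt_nonneg) (128 * T ^ 2)
    (by have : 1 ≤ T ^ 2 := Nat.one_le_pow _ _ (by omega)
        omega) (N / (T : ℝ) ^ 3) (by positivity) hB (1 / (T : ℝ)) (by positivity)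
    (by rw [div_le_one hTpos]; exact hTone) (by push_cast; rw [div_pow, one_pow]; field_simp; norm_num)
    (fun n => g n / T ^ (100 * D + 91) = (g n / T ^ (100 * D + 92)) * T) (by
      intro n hn k hk1 hk2
      rw [mem_Ioc] at hn
      have hn1 : 1 ≤ n := by omega
      have hgn := hg n hn1
      have hnr : (n : ℝ) ≤ 4 * (T : ℝ) ^ 100 := by
        have : (n : ℝ) ≤ 2 * N := by exact_mod_cast hn.2
        linarith
      have herr : Cf * (n : ℝ) ^ D ≤ P / 16 := by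
        have hpn : (n : ℝ) ^ D ≤ (4 * (T : ℝ) ^ 100) ^ D := pow_le_pow_left₀ (by positivity) hnr _
        calc Cf * (n : ℝ) ^ D ≤ Cf * (4 * (T : ℝ) ^ 100) ^ D := by gcongr
          _ = (16 * Cf * 4 ^ D) * ((T : ℝ) ^ 100) ^ D / 16 := by rw [mul_pow]; ring
          _ ≤ T * ((T : ℝ) ^ 100) ^ D / 16 := by gcongr
          _ = (T : ℝ) ^ (100 * D + 1) / 16 := by rw [← pow_mul, pow_succ]; ring
          _ ≤ P / 16 := by
              rw [hP]
              apply div_le_div_of_nonneg_right _ (by norm_num)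
              exact pow_le_pow_right₀ hTone (by omega)
      rw [abs_le] at hgn
      have hyn : a * (n : ℝ) ^ (D + 1) = P * T * y n := by
        simp only [hy]; field_simp
      have hPT : 0 < P * T := by positivity
      have hlo : (k : ℝ) * (P * T) + P / 4 < a * (n : ℝ) ^ (D + 1) := by
        rw [hyn]
        calc (k : ℝ) * (P * T) + P / 4 = P * T * (k + 1 / T / 4) := by field_simp
          _ < P * T * y n := by gcongr
      have hhi : a * (n : ℝ) ^ (D + 1) < (k : ℝ) * (P * T) + 3 * P / 4 := by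
        rw [hyn]
        calc P * T * y n < P * T * (k + 3 * (1 / T) / 4) := by gcongr
          _ = _ := by field_simp
      have hlo2 : (k : ℝ) * (P * T) < g n := by linarith
      have hhi2 : (g n : ℝ) < (k : ℝ) * (P * T) + P := by linarith
      have hk0 : 0 ≤ k := by
        by_contra hneg
        push Not at hneg
        have h1 : (k : ℝ) ≤ -1 := by exact_mod_cast (by omega : k ≤ -1)
        have h2 : (0 : ℝ) ≤ g n := Nat.cast_nonneg _
        have h3 : (k : ℝ) * (P * T) ≤ -1 * (P * T) := mul_le_mul_of_nonneg_right h1 hPT.le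
        have h4 : P ≤ P * T := by nlinarith
        linarith
      obtain ⟨k', rfl⟩ := Int.eq_ofNat_of_zero_le hk0
      have hPn : P = ((T ^ (100 * D + 91) : ℕ) : ℝ) := by rw [hP]; push_cast; rfl
      rw [hPn] at hlo2 hhi2
      have e2 : T ^ (100 * D + 92) = T ^ (100 * D + 91) * T := by rw [← pow_succ]
      rw [e2]
      apply div_of_window _ _ _ k' (by omega) (Nat.one_le_pow _ _ (by omega))
      · have : ((k' * (T ^ (100 * D + 91) * T) : ℕ) : ℝ) ≤ ((g n : ℕ) : ℝ) := by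
          push_cast at hlo2 ⊢
          linarith
        exact_mod_cast this
      · have : ((g n : ℕ) : ℝ) < ((k' * (T ^ (100 * D + 91) * T) + T ^ (100 * D + 91) : ℕ) : ℝ) := by
          push_cast at hhi2 ⊢
          linarith
        exact_mod_cast this)
  refine le_trans ?_ hdet
  push_cast
  have h7 : (N : ℝ) / 4 / (2 * (128 * (T : ℝ) ^ 2)) ≤
      (∑ n ∈ Ioc N (2 * N), ArithmeticFunction.vonMangoldt n) / (2 * (128 * (T : ℝ) ^ 2)) := by
    gcongr
  have h8 : (N : ℝ) / (T : ℝ) ^ 3 ≤ N / (2048 * (T : ℝ) ^ 2) := by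
    apply div_le_div_of_nonneg_left (by positivity) (by positivity)
    calc 2048 * (T : ℝ) ^ 2 ≤ T * (T : ℝ) ^ 2 := by gcongr
      _ = (T : ℝ) ^ 3 := by ring
  have h9 : (N : ℝ) / 4 / (2 * (128 * (T : ℝ) ^ 2)) = 2 * (N / (2048 * (T : ℝ) ^ 2)) := by
    field_simp; norm_num
  linarith

end Pool.Agent.H428R3.SN
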