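import Mathlib
import Pool.Agent.H428R3.SN.SSet

/-!
Long runs of consecutive primes for which the polynomial values have a block of zeros at the same place.
-/

open Finset

namespace Pool.Agent.H428R3.SN

set_option maxHeartbeats 4000000 in
theorem run (D : ℕ) (a Cf : ℝ) (ha : 0 < a) (hCf : 0 ≤ Cf) (g : ℕ → ℕ)
    (hg : ∀ n : ℕ, 1 ≤ n → |(g n : ℝ) - a * (n : ℝ) ^ (D + 1)| ≤ Cf * (n : ℝ) ^ D)
    (ng : ℕ) (hmono : ∀ n n' : ℕ, ng ≤ n → n ≤ n' → g n ≤ g n') :
    ∃ T0 : ℕ, ∀ T : ℕ, T0 ≤ T → ∃ w j0 R : ℕ, 1 ≤ w ∧ T ^ 80 ≤ R ∧ j0 + R ≤ T ^ 101 ∧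
      (∀ j, j < j0 + R → g (Nat.nth Nat.Prime j) < T ^ (100 * D + 101)) ∧
      (∀ j, j0 ≤ j → j < j0 + R → g (Nat.nth Nat.Prime j) / T ^ (100 * D + 91) = w * T) := by
  obtain ⟨T1, hT1⟩ := sset D a Cf ha hCf g hg
  obtain ⟨T2, hT2⟩ := mass
  obtain ⟨T3, hT3⟩ := exists_nat_ge (1 / a)
  obtain ⟨T4, hT4⟩ := exists_nat_ge ((a + Cf) * 4 ^ (D + 1) + 1)
  obtain ⟨T5, hT5⟩ := polylog 1 one_pos
  obtain ⟨T6, hT6⟩ := exists_nat_ge Cf
  refine ⟨T1 + T2 + T3 + T4 + T5 + T6 + ng + 2048, fun T hT => ?_⟩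
  have hTr : (2048 : ℝ) ≤ T := by exact_mod_cast (by omega : 2048 ≤ T)
  have hTpos : (0 : ℝ) < T := by linarith
  have hTone : (1 : ℝ) ≤ T := by linarith
  have hTn1 : 1 ≤ T := by omega
  have hplog := hT5 T (by omega)
  have hTa : 1 / a ≤ T := hT3.trans (by exact_mod_cast (by omega : T3 ≤ T))
  have hTf : (a + Cf) * 4 ^ (D + 1) + 1 ≤ T := hT4.trans (by exact_mod_cast (by omega : T4 ≤ T))
  have hTCf : Cf ≤ T := hT6.trans (by exact_mod_cast (by omega : T6 ≤ T))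
  have hTa1 : 1 ≤ a * T := by
    rw [div_le_iff₀ ha] at hTa
    linarith
  have hTle : T ≤ T ^ 100 := Nat.le_self_pow (by norm_num) T
  obtain ⟨N, hN, hmass⟩ := hT2 (T ^ 100) (by omega)
  have hNlow : T ^ 100 ≤ N := by rcases hN with h | h <;> omega
  have hNup : N ≤ 2 * T ^ 100 := by rcases hN with h | h <;> omega
  have hNlowr : (T : ℝ) ^ 100 ≤ N := by exact_mod_cast hNlow
  have hNupr : (N : ℝ) ≤ 2 * (T : ℝ) ^ 100 := by exact_mod_cast hNup
  have hT100 : (1 : ℝ) ≤ (T : ℝ) ^ 100 := one_le_pow₀ hTone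
  have hN0 : (1 : ℝ) ≤ N := by linarith
  have hN1 : 1 ≤ N := by exact_mod_cast hN0
  -- upper bound
  have hup : ∀ n : ℕ, 1 ≤ n → n ≤ 4 * T ^ 100 → g n < T ^ (100 * D + 101) := by
    intro n hn1 hn2
    have hn1r : (1 : ℝ) ≤ n := by exact_mod_cast hn1
    have hn2r : (n : ℝ) ≤ 4 * (T : ℝ) ^ 100 := by exact_mod_cast hn2
    have h1 := hg n hn1
    rw [abs_le] at h1
    have h2 : (n : ℝ) ^ D ≤ (n : ℝ) ^ (D + 1) := pow_le_pow_right₀ hn1r (by omega)
    have h3 : (n : ℝ) ^ (D + 1) ≤ (4 * (T : ℝ) ^ 100) ^ (D + 1) := pow_le_pow_left₀ (by linarith) hn2r _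
    have h4 : (g n : ℝ) < (T : ℝ) ^ (100 * D + 101) := by
      calc (g n : ℝ) ≤ a * (n : ℝ) ^ (D + 1) + Cf * (n : ℝ) ^ D := by linarith
        _ ≤ a * (n : ℝ) ^ (D + 1) + Cf * (n : ℝ) ^ (D + 1) := by gcongr
        _ = (a + Cf) * (n : ℝ) ^ (D + 1) := by ring
        _ ≤ (a + Cf) * (4 * (T : ℝ) ^ 100) ^ (D + 1) := by gcongr
        _ = ((a + Cf) * 4 ^ (D + 1)) * ((T : ℝ) ^ 100) ^ (D + 1) := by rw [mul_pow]; ring
        _ < T * ((T : ℝ) ^ 100) ^ (D + 1) := by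
            apply mul_lt_mul_of_pos_right _ (by positivity)
            linarith
        _ = (T : ℝ) ^ (100 * D + 101) := by
            rw [← pow_mul, ← pow_succ']
            congr 1
    exact_mod_cast h4
  -- pigeonhole
  have hss := hT1 T (by omega) N hN hmass
  obtain ⟨w, -, hw⟩ := exists_le_sum_fiber_of_maps_to_of_nsmul_le_sum
    (s := (Ioc N (2 * N)).filter (fun n => g n / T ^ (100 * D + 91) = (g n / T ^ (100 * D + 92)) * T))
    (t := range (T ^ 9)) (f := fun n => g n / T ^ (100 * D + 92))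
    (w := fun n => (ArithmeticFunction.vonMangoldt n : ℝ)) (b := (N : ℝ) / (2048 * (T : ℝ) ^ 11))
    (by
      intro n hn
      rw [mem_filter, mem_Ioc] at hn
      rw [mem_range, Nat.div_lt_iff_lt_mul (by positivity)]
      have h1 := hup n (by omega) (by omega)
      calc g n < T ^ (100 * D + 101) := h1
        _ = T ^ 9 * T ^ (100 * D + 92) := by rw [← pow_add]; congr 1; ring)
    (by
      rw [nonempty_range_iff]
      positivity)
    (by
      rw [card_range, nsmul_eq_mul]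
      refine le_trans (le_of_eq ?_) hss
      push_cast
      field_simp)
  set Q := (Ioc N (2 * N)).filter (fun n => g n / T ^ (100 * D + 91) = w * T) with hQ
  have hQmass : (T : ℝ) ^ 88 ≤ ∑ n ∈ Q, (ArithmeticFunction.vonMangoldt n : ℝ) := by
    calc (T : ℝ) ^ 88 = (T : ℝ) ^ 100 / (T * (T : ℝ) ^ 11) := by field_simp
      _ ≤ N / (2048 * (T : ℝ) ^ 11) := by gcongr
      _ ≤ _ := hw
      _ ≤ _ := by
          apply sum_le_sum_of_subset_of_nonneg
          · intro n hn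
            rw [mem_filter, mem_filter] at hn
            rw [hQ, mem_filter]
            refine ⟨hn.1.1, ?_⟩
            rw [hn.1.2, hn.2]
          · intro n _ _
            exact ArithmeticFunction.vonMangoldt_nonneg
  have hLg1 : 0 ≤ Real.log (8 * (T : ℝ) ^ 100) := Real.log_nonneg (by linarith)
  have hlog2N : Real.log (((2 * N : ℕ) : ℝ)) ≤ T := by
    have h1 : Real.log (((2 * N : ℕ) : ℝ)) ≤ Real.log (8 * (T : ℝ) ^ 100) := by
      apply Real.log_le_log (by push_cast; linarith)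
      push_cast
      linarith
    have h2 : 1 + Real.log (8 * (T : ℝ) ^ 100) ≤ (1 + Real.log (8 * (T : ℝ) ^ 100)) ^ 6 :=
      le_self_pow₀ (by linarith) (by norm_num)
    linarith
  have hnp := nonprime_mass (2 * N) (by omega) Q (by
    intro n hn
    rw [hQ, mem_filter, mem_Ioc] at hn
    rw [mem_Ioc]
    omega)
  have hsqrt : Real.sqrt (((2 * N : ℕ) : ℝ)) ≤ 2 * (T : ℝ) ^ 50 := by
    rw [Real.sqrt_le_left (by positivity)]
    push_cast
    calc 2 * (N : ℝ) ≤ 4 * (T : ℝ) ^ 100 := by linarith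
      _ = (2 * (T : ℝ) ^ 50) ^ 2 := by ring
  have hlog0 : 0 ≤ Real.log (((2 * N : ℕ) : ℝ)) := Real.log_natCast_nonneg _
  have hnp2 : ∑ n ∈ Q.filter (fun n => ¬ n.Prime), (ArithmeticFunction.vonMangoldt n : ℝ) ≤ (T : ℝ) ^ 52 := by
    refine hnp.trans ?_
    calc 2 * Real.sqrt (((2 * N : ℕ) : ℝ)) * Real.log (((2 * N : ℕ) : ℝ)) ≤ 2 * (2 * (T : ℝ) ^ 50) * T := by gcongr
      _ = 4 * (T : ℝ) ^ 51 := by ring
      _ ≤ T * (T : ℝ) ^ 51 := by gcongr; linarith
      _ = (T : ℝ) ^ 52 := by ring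
  set PQ := Q.filter (fun n => n.Prime) with hPQ
  have hpm : ∑ n ∈ PQ, (ArithmeticFunction.vonMangoldt n : ℝ) ≤ (#PQ : ℝ) * T := by
    rw [← nsmul_eq_mul]
    apply sum_le_card_nsmul
    intro n hn
    rw [hPQ, mem_filter, hQ, mem_filter, mem_Ioc] at hn
    rw [ArithmeticFunction.vonMangoldt_apply_prime hn.2]
    refine le_trans ?_ hlog2N
    apply Real.log_le_log
    · exact_mod_cast hn.2.pos
    · exact_mod_cast hn.1.1.2
  have hsplit := sum_filter_add_sum_filter_not Q (fun n => n.Prime) (fun n => (ArithmeticFunction.vonMangoldt n : ℝ))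
  have hcard : T ^ 80 ≤ #PQ := by
    have h1 : (T : ℝ) ^ 88 - (T : ℝ) ^ 52 ≤ (#PQ : ℝ) * T := by
      rw [← hPQ] at hsplit
      linarith
    have h2 : (T : ℝ) ^ 80 * T ≤ (#PQ : ℝ) * T := by
      refine le_trans ?_ h1
      have h3 : (T : ℝ) ^ 52 ≤ (T : ℝ) ^ 81 := pow_le_pow_right₀ hTone (by norm_num)
      have h4 : 2 * (T : ℝ) ^ 81 ≤ (T : ℝ) ^ 88 := by
        calc 2 * (T : ℝ) ^ 81 ≤ T * (T : ℝ) ^ 81 := by gcongr; linarith
          _ = (T : ℝ) ^ 82 := by ring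
          _ ≤ (T : ℝ) ^ 88 := pow_le_pow_right₀ hTone (by norm_num)
      have h5 : (T : ℝ) ^ 80 * T = (T : ℝ) ^ 81 := by ring
      linarith
    have h6 : (T : ℝ) ^ 80 ≤ (#PQ : ℝ) := le_of_mul_le_mul_right h2 hTpos
    exact_mod_cast h6
  have hne : PQ.Nonempty := by
    rw [← card_pos]
    exact lt_of_lt_of_le (by positivity) hcard
  have hmem : ∀ n ∈ PQ, (N < n ∧ n ≤ 2 * N) ∧ g n / T ^ (100 * D + 91) = w * T ∧ n.Prime := by
    intro n hn
    rw [hPQ, mem_filter, hQ, mem_filter, mem_Ioc] at hn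
    exact ⟨hn.1.1, hn.1.2, hn.2⟩
  obtain ⟨⟨hm1, hm2⟩, hm3, hm4⟩ := hmem _ (PQ.min'_mem hne)
  obtain ⟨⟨hM1, hM2⟩, hM3, hM4⟩ := hmem _ (PQ.max'_mem hne)
  set pm := PQ.min' hne with hpmdef
  set pM := PQ.max' hne with hpMdef
  have hpmM : pm ≤ pM := PQ.min'_le_max' hne
  have hj01 : Nat.count Nat.Prime pm ≤ Nat.count Nat.Prime pM := Nat.count_monotone _ hpmM
  have hpj : ∀ j, j < Nat.count Nat.Prime pM + 1 → Nat.nth Nat.Prime j ≤ pM := by
    intro j hj
    have h1 := Nat.nth_monotone Nat.infinite_setOfPred_prime (by omega : j ≤ Nat.count Nat.Prime pM)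
    rwa [Nat.nth_count hM4] at h1
  refine ⟨w, Nat.count Nat.Prime pm, Nat.count Nat.Prime pM + 1 - Nat.count Nat.Prime pm, ?_, ?_, ?_, ?_, ?_⟩
  · by_contra hw0
    have hw0' : w = 0 := by omega
    rw [hw0', zero_mul, Nat.div_eq_zero_iff] at hm3
    rcases hm3 with h | h
    · have : 0 < T ^ (100 * D + 91) := by positivity
      omega
    · have h1 := hg pm (by omega)
      rw [abs_le] at h1
      have hpmr : (T : ℝ) ^ 100 ≤ pm := hNlowr.trans (by exact_mod_cast hm1.le)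
      have hpm0 : (0 : ℝ) ≤ pm := Nat.cast_nonneg _
      have h2 : (g pm : ℝ) < (T : ℝ) ^ (100 * D + 91) := by exact_mod_cast h
      have h3 : (T : ℝ) ^ 91 ≤ a * pm - Cf := by
        have h4 : (T : ℝ) ^ 99 ≤ a * pm := by
          calc (T : ℝ) ^ 99 = 1 * (T : ℝ) ^ 99 := by ring
            _ ≤ (a * T) * (T : ℝ) ^ 99 := by gcongr
            _ = a * (T : ℝ) ^ 100 := by ring
            _ ≤ a * pm := by gcongr
        have h5 : 2 * (T : ℝ) ^ 98 ≤ (T : ℝ) ^ 99 := by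
          calc 2 * (T : ℝ) ^ 98 ≤ T * (T : ℝ) ^ 98 := by gcongr; linarith
            _ = (T : ℝ) ^ 99 := by ring
        have h6 : (T : ℝ) ^ 91 ≤ (T : ℝ) ^ 98 := pow_le_pow_right₀ hTone (by norm_num)
        have h7 : (T : ℝ) ≤ (T : ℝ) ^ 98 := le_self_pow₀ hTone (by norm_num)
        linarith
      have h8 : (T : ℝ) ^ (100 * D + 91) ≤ g pm := by
        calc (T : ℝ) ^ (100 * D + 91) = ((T : ℝ) ^ 100) ^ D * (T : ℝ) ^ 91 := by
              rw [← pow_mul, ← pow_add]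
          _ ≤ (pm : ℝ) ^ D * (a * pm - Cf) := by gcongr
          _ = a * (pm : ℝ) ^ (D + 1) - Cf * (pm : ℝ) ^ D := by ring
          _ ≤ g pm := by linarith
      linarith
  · refine hcard.trans ?_
    have h1 : #PQ ≤ #(Icc (Nat.count Nat.Prime pm) (Nat.count Nat.Prime pM)) := by
      apply card_le_card_of_injOn (fun p => Nat.count Nat.Prime p)
      · intro p hp
        simp only [coe_Icc, Set.mem_Icc]
        exact ⟨Nat.count_monotone _ (PQ.min'_le p hp), Nat.count_monotone _ (PQ.le_max' p hp)⟩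
      · intro p hp q hq hpq
        exact Nat.count_injective (hmem p hp).2.2 (hmem q hq).2.2 hpq
    rwa [Nat.card_Icc] at h1
  · have h1 : Nat.count Nat.Prime pM ≤ pM := Nat.count_le _
    have h2 : 5 * T ^ 100 ≤ T * T ^ 100 := Nat.mul_le_mul_right _ (by omega)
    have h3 : T * T ^ 100 = T ^ 101 := by ring
    omega
  · intro j hj
    have h1 := hpj j (by omega)
    have h2 : 1 ≤ Nat.nth Nat.Prime j := (Nat.prime_nth_prime j).one_lt.le
    exact hup _ h2 (by omega)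
  · intro j hj1 hj2
    have h1 := hpj j (by omega)
    have h2 : pm ≤ Nat.nth Nat.Prime j := by
      have h3 := Nat.nth_monotone Nat.infinite_setOfPred_prime hj1
      rwa [Nat.nth_count hm4] at h3
    have h3 := hmono pm (Nat.nth Nat.Prime j) (by omega) h2
    have h4 := hmono (Nat.nth Nat.Prime j) pM (by omega) h1
    apply le_antisymm
    · rw [← hM3]
      exact Nat.div_le_div_right h4
    · rw [← hm3]
      exact Nat.div_le_div_right h3

end Pool.Agent.H428R3.SN
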