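import Mathlib
import Pool.Agent.H428R3.SN.Run
import Pool.Agent.H428R3.SN.PolyData

/-!
The digit blocks along a run, and the contradiction.
-/

open Finset Filter

namespace Pool.Agent.H428R3.SN

lemma zero_digit (b : ℕ) (hb : 2 ≤ b) (G w t J' i : ℕ) (hG : G / b ^ J' = w * b ^ t)
    (hi1 : J' ≤ i) (hi2 : i < J' + t) : (Nat.digits b G).getD i 0 = 0 := by
  rw [Nat.getD_digits _ _ hb]
  obtain ⟨k, rfl⟩ : ∃ k, i = J' + k := ⟨i - J', by omega⟩
  obtain ⟨r, rfl⟩ : ∃ r, t = k + 1 + r := ⟨t - k - 1, by omega⟩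
  rw [pow_add, ← Nat.div_div_eq_div_mul, hG]
  have h1 : w * b ^ (k + 1 + r) = (w * b ^ r * b) * b ^ k := by ring
  rw [h1, Nat.mul_div_cancel _ (by positivity)]
  exact Nat.mul_mod_left _ _

lemma length_run (b : ℕ) (hb : 2 ≤ b) (G w t J' : ℕ) (hw : 1 ≤ w) (hG : G / b ^ J' = w * b ^ t) :
    (Nat.digits b G).length = J' + t + (Nat.digits b w).length := by
  have hbt : 0 < b ^ t := by positivity
  have hbJ : 0 < b ^ J' := by positivity
  have h1 : (w * b ^ t) * b ^ J' ≤ G := by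
    rw [← hG]; exact Nat.div_mul_le_self _ _
  have h2 : G < (w * b ^ t + 1) * b ^ J' := by
    have := Nat.lt_div_mul_add (a := G) hbJ
    rw [hG] at this
    calc G < w * b ^ t * b ^ J' + b ^ J' := this
      _ = _ := by ring
  have hw1 : w < b ^ (Nat.log b w + 1) := Nat.lt_pow_succ_log_self (by omega : 1 < b) w
  have hw0 := Nat.pow_log_le_self b (by omega : w ≠ 0)
  set q := Nat.log b w with hq
  have h3 : b ^ (q + (J' + t)) ≤ G := by
    calc b ^ (q + (J' + t)) = (b ^ q * b ^ t) * b ^ J' := by ring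
      _ ≤ (w * b ^ t) * b ^ J' := by gcongr
      _ ≤ G := h1
  have h4 : G < b ^ (q + (J' + t) + 1) := by
    calc G < (w * b ^ t + 1) * b ^ J' := h2
      _ ≤ (w * b ^ t + b ^ t) * b ^ J' := by gcongr; omega
      _ = ((w + 1) * b ^ t) * b ^ J' := by ring
      _ ≤ (b ^ (q + 1) * b ^ t) * b ^ J' := by gcongr; omega
      _ = b ^ (q + (J' + t) + 1) := by ring
  have hG0 : G ≠ 0 := by
    have : 0 < b ^ (q + (J' + t)) := by positivity
    omega
  rw [Nat.length_digits _ _ (by omega) hG0, Nat.length_digits _ _ (by omega) (by omega : w ≠ 0),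
    Nat.log_eq_of_pow_le_of_lt_pow h3 h4]
  omega

lemma count_step (d : ℕ → ℕ) (b m : ℕ) (hm : 1 ≤ m) (x x' y t u : ℕ) (hxy : x ≤ y) (hyx : y + t ≤ x')
    (ht : t = m * (u + 2)) (hz : ∀ q, y ≤ q → q < y + t → d q = 0) :
    #((range ((x + m - 1) / m)).filter (fun q => ∑ i ∈ range m, d (m * q + i) * b ^ (m - 1 - i) = 0)) + u ≤
      #((range ((x' + m - 1) / m)).filter (fun q => ∑ i ∈ range m, d (m * q + i) * b ^ (m - 1 - i) = 0)) := by
  have hcard : u ≤ #(Ico ((y + m - 1) / m) ((y + t) / m)) := by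
    rw [Nat.card_Ico, ht, Nat.add_mul_div_left _ _ (by omega)]
    have h1 : (y + m - 1) / m ≤ y / m + 1 := by
      calc (y + m - 1) / m ≤ (y + m) / m := Nat.div_le_div_right (by omega)
        _ = y / m + 1 := Nat.add_div_right _ (by omega)
    omega
  have hc1 : (x + m - 1) / m ≤ (y + m - 1) / m := Nat.div_le_div_right (by omega)
  have hc2 : (y + t) / m ≤ (x' + m - 1) / m := Nat.div_le_div_right (by omega)
  have hc3 : (y + m - 1) / m ≤ (y + t) / m := by
    apply Nat.div_le_div_right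
    have : m * 2 ≤ t := by rw [ht]; exact Nat.mul_le_mul_left _ (by omega)
    omega
  have hdisj : Disjoint ((range ((x + m - 1) / m)).filter
      (fun q => ∑ i ∈ range m, d (m * q + i) * b ^ (m - 1 - i) = 0)) (Ico ((y + m - 1) / m) ((y + t) / m)) := by
    rw [disjoint_left]
    intro q hq hq'
    rw [mem_filter, mem_range] at hq
    rw [mem_Ico] at hq'
    omega
  calc _ ≤ #((range ((x + m - 1) / m)).filter (fun q => ∑ i ∈ range m, d (m * q + i) * b ^ (m - 1 - i) = 0)) +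
        #(Ico ((y + m - 1) / m) ((y + t) / m)) := by omega
    _ = #(((range ((x + m - 1) / m)).filter (fun q => ∑ i ∈ range m, d (m * q + i) * b ^ (m - 1 - i) = 0)) ∪
        Ico ((y + m - 1) / m) ((y + t) / m)) := (card_union_of_disjoint hdisj).symm
    _ ≤ _ := by
        apply card_le_card
        apply union_subset
        · intro q hq
          rw [mem_filter, mem_range] at hq ⊢
          exact ⟨by omega, hq.2⟩
        · intro q hq
          rw [mem_Ico] at hq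
          rw [mem_filter, mem_range]
          refine ⟨by omega, sum_eq_zero fun i hi => ?_⟩
          rw [mem_range] at hi
          have h1 : y ≤ m * q := by
            have h2 : y + m - 1 < (q + 1) * m := by
              rw [← Nat.div_lt_iff_lt_mul (by omega)]; omega
            have h3 : (q + 1) * m = m * q + m := by ring
            omega
          have h4 : m * q + i < y + t := by
            have h5 : (q + 1) * m ≤ y + t := by
              rw [← Nat.le_div_iff_mul_le (by omega)]; omega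
            have h3 : (q + 1) * m = m * q + m := by ring
            omega
          rw [hz _ (by omega) h4, zero_mul]

lemma disc_bound (b m : ℕ) (hb : 2 ≤ b) (A : ℕ → ℝ)
    (h1 : ∀ᶠ n : ℕ in atTop, (A n - (n : ℝ) / (b : ℝ) ^ m) / Real.sqrt (2 * (n : ℝ) * Real.log (Real.log (n : ℝ))) ≤
      Real.sqrt ((b : ℝ) ^ m - 1) / (b : ℝ) ^ m + 1)
    (h2 : ∀ᶠ n : ℕ in atTop, -(Real.sqrt ((b : ℝ) ^ m - 1) / (b : ℝ) ^ m) - 1 ≤
      (A n - (n : ℝ) / (b : ℝ) ^ m) / Real.sqrt (2 * (n : ℝ) * Real.log (Real.log (n : ℝ)))) :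
    ∃ K : ℝ, 0 ≤ K ∧ ∀ n : ℕ, |A n - (n : ℝ) / (b : ℝ) ^ m| ≤ Real.sqrt n * Real.sqrt (Real.sqrt n) + K := by
  have hbm : (1 : ℝ) ≤ (b : ℝ) ^ m := one_le_pow₀ (by exact_mod_cast (by omega : 1 ≤ b))
  have hc : Real.sqrt ((b : ℝ) ^ m - 1) / (b : ℝ) ^ m ≤ 1 := by
    rw [div_le_one (by linarith), Real.sqrt_le_left (by linarith)]
    nlinarith
  have hlog := (Real.isLittleO_pow_log_id_atTop (n := 2)).bound (c := 1 / 64) (by positivity)
  have hlog2 := tendsto_natCast_atTop_atTop (R := ℝ) |>.eventually hlog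
  obtain ⟨n0, hn0⟩ := eventually_atTop.1 (h1.and (h2.and hlog2))
  refine ⟨∑ n ∈ range (n0 + 16), |A n - (n : ℝ) / (b : ℝ) ^ m|, sum_nonneg fun _ _ => abs_nonneg _, fun n => ?_⟩
  rcases lt_or_ge n (n0 + 16) with hn | hn
  · have h3 := single_le_sum (s := range (n0 + 16)) (f := fun n : ℕ => |A n - (n : ℝ) / (b : ℝ) ^ m|)
      (fun i _ => abs_nonneg _) (mem_range.2 hn)
    have h4 : 0 ≤ Real.sqrt n * Real.sqrt (Real.sqrt n) := by positivity
    linarith
  · obtain ⟨h3, h4, h5⟩ := hn0 n (by omega)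
    have hn16 : (16 : ℝ) ≤ n := by exact_mod_cast (by omega : 16 ≤ n)
    simp only [id] at h5
    rw [Real.norm_of_nonneg (by positivity : (0 : ℝ) ≤ (n : ℝ))] at h5
    have h6 : Real.log (n : ℝ) ^ 2 ≤ 1 / 64 * n := le_trans (Real.le_norm_self _) h5
    have hlog16 : 1 < Real.log (n : ℝ) := by
      have h7 : Real.log 16 ≤ Real.log n := Real.log_le_log (by norm_num) hn16
      have h8 : Real.log 16 = 4 * Real.log 2 := by
        rw [show (16 : ℝ) = 2 ^ 4 by norm_num, Real.log_pow]; norm_num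
      have := Real.log_two_gt_d9
      linarith
    have hll : 0 < Real.log (Real.log (n : ℝ)) := Real.log_pos hlog16
    have hll2 : Real.log (Real.log (n : ℝ)) ≤ Real.log n := by
      have := Real.log_le_sub_one_of_pos (show 0 < Real.log (n : ℝ) by linarith)
      linarith
    have h9 : Real.log (n : ℝ) ≤ Real.sqrt n / 8 := by
      have h10 : Real.log (n : ℝ) ≤ Real.sqrt (n / 64) := by
        rw [Real.le_sqrt (by linarith) (by positivity)]
        linarith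
      refine h10.trans (le_of_eq ?_)
      rw [Real.sqrt_div (by positivity)]
      congr 1
      rw [show (64 : ℝ) = 8 ^ 2 by norm_num, Real.sqrt_sq (by norm_num)]
    set den := Real.sqrt (2 * (n : ℝ) * Real.log (Real.log (n : ℝ))) with hden
    have hden0 : 0 < den := Real.sqrt_pos.2 (by positivity)
    have hden2 : 2 * den ≤ Real.sqrt n * Real.sqrt (Real.sqrt n) := by
      rw [hden, show (2 : ℝ) = Real.sqrt 4 by rw [show (4 : ℝ) = 2 ^ 2 by norm_num, Real.sqrt_sq (by norm_num)],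
        ← Real.sqrt_mul (by norm_num), ← Real.sqrt_mul (by positivity)]
      apply Real.sqrt_le_sqrt
      rw [show Real.sqrt 4 = (2 : ℝ) by rw [show (4 : ℝ) = 2 ^ 2 by norm_num, Real.sqrt_sq (by norm_num)]]
      have h11 : Real.log (Real.log (n : ℝ)) ≤ Real.sqrt n / 8 := hll2.trans h9
      calc 4 * (2 * (n : ℝ) * Real.log (Real.log (n : ℝ))) = 8 * n * Real.log (Real.log (n : ℝ)) := by ring
        _ ≤ 8 * n * (Real.sqrt n / 8) := by gcongr
        _ = n * Real.sqrt n := by ring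
    rw [div_le_iff₀ hden0] at h3
    rw [le_div_iff₀ hden0] at h4
    have hK : 0 ≤ ∑ n ∈ range (n0 + 16), |A n - (n : ℝ) / (b : ℝ) ^ m| := sum_nonneg fun _ _ => abs_nonneg _
    rw [abs_le]
    constructor
    · nlinarith
    · nlinarith

/-- the numerical contradiction -/
lemma numeric (R u T K A0 A1 q0 q1 B E : ℝ) (hR0 : 0 ≤ R) (hu16 : 16 ≤ u)
    (hT16 : 16 ≤ T) (hRr : T ^ 80 ≤ R) (hKT : K ≤ T ^ 78) (hE0 : 0 < E) (hB1 : 1 ≤ B) (hBE : 4 * E ≤ B)
    (hqdiff : q1 - q0 ≤ R * ((u + 2) * E) + 1)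
    (hA1 : A1 - q1 / B ≤ T ^ 78 + K) (hA0 : -(T ^ 78 + K) ≤ A0 - q0 / B) (hI : A0 + R * u ≤ A1) : False := by
  have hB0 : 0 < B := by linarith
  have hkey : R * u ≤ (R * (u + 2)) / 4 + 1 + 2 * T ^ 78 + 2 * K := by
    have h1 : (q1 - q0) / B ≤ (R * (u + 2)) / 4 + 1 := by
      rw [div_le_iff₀ hB0]
      refine hqdiff.trans ?_
      have h2 : R * ((u + 2) * E) = (R * (u + 2)) / 4 * (4 * E) := by ring
      rw [h2, add_mul]
      have h4 : R * (u + 2) / 4 * (4 * E) ≤ R * (u + 2) / 4 * B := by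
        apply mul_le_mul_of_nonneg_left hBE
        have : 0 ≤ R * (u + 2) := mul_nonneg hR0 (by linarith)
        linarith
      linarith
    have h5 : (q1 - q0) / B = q1 / B - q0 / B := by ring
    rw [h5] at h1
    linarith
  have h10 : R ≤ 1 + 2 * T ^ 78 + 2 * K := by nlinarith
  have hT1 : (1 : ℝ) ≤ T := by linarith
  have h11 : (1 : ℝ) ≤ T ^ 78 := one_le_pow₀ hT1
  have h12 : (256 : ℝ) * T ^ 78 ≤ T ^ 80 := by
    have h13 : T ^ 80 = (T * T) * T ^ 78 := by rw [← pow_two, ← pow_add]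
    rw [h13]
    apply mul_le_mul_of_nonneg_right _ (by linarith)
    nlinarith
  linarith

lemma sqrt_bound (q T : ℝ) (hT : 0 ≤ T) (h : q ≤ T ^ 104) :
    Real.sqrt q * Real.sqrt (Real.sqrt q) ≤ T ^ 78 := by
  have h1 : Real.sqrt q ≤ T ^ 52 := by
    rw [Real.sqrt_le_left (pow_nonneg hT _)]
    calc q ≤ T ^ 104 := h
      _ = (T ^ 52) ^ 2 := by ring
  have h2 : Real.sqrt (Real.sqrt q) ≤ T ^ 26 := by
    rw [Real.sqrt_le_left (pow_nonneg hT _)]
    calc Real.sqrt q ≤ T ^ 52 := h1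
      _ = (T ^ 26) ^ 2 := by ring
  calc Real.sqrt q * Real.sqrt (Real.sqrt q) ≤ T ^ 52 * T ^ 26 :=
        mul_le_mul h1 h2 (Real.sqrt_nonneg _) (pow_nonneg hT _)
    _ = T ^ 78 := by ring

set_option maxHeartbeats 4000000 in
theorem final (b : ℕ) (hb : 2 ≤ b) (f : Polynomial ℚ) (hf : 0 < f.degree) (g : ℕ → ℕ)
    (hg : ∀ n : ℕ, 1 ≤ n → 1 ≤ g n ∧ ((g n : ℚ) = f.eval (n : ℚ))) (d : ℕ → ℕ)
    (hd : ∀ j i : ℕ, i < (Nat.digits b (g (Nat.nth Nat.Prime j))).length →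
        d ((∑ t ∈ Finset.range j, (Nat.digits b (g (Nat.nth Nat.Prime t))).length) + i)
          = ((Nat.digits b (g (Nat.nth Nat.Prime j))).reverse).getD i 0)
    (hA : ∀ m : ℕ, 1 ≤ m → ∃ K : ℝ, 0 ≤ K ∧ ∀ n : ℕ,
      |((#((range n).filter (fun j => ∑ i ∈ range m, d (m * j + i) * b ^ (m - 1 - i) = 0)) : ℕ) : ℝ) -
        (n : ℝ) / (b : ℝ) ^ m| ≤ Real.sqrt n * Real.sqrt (Real.sqrt n) + K) : False := by
  obtain ⟨D, a, Cf, ng, ha, hCf, hg2, hmono⟩ := poly_data f hf g hg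
  obtain ⟨T0, hrun⟩ := run D a Cf ha hCf g hg2 ng hmono
  obtain ⟨E, hE⟩ : ∃ E, E = 100 * D + 101 := ⟨_, rfl⟩
  obtain ⟨m, hm⟩ : ∃ m, m = 4 * E := ⟨_, rfl⟩
  have hm1 : 1 ≤ m := by omega
  obtain ⟨K, hK0, hK⟩ := hA m hm1
  obtain ⟨K1, hK1⟩ := exists_nat_ge K
  obtain ⟨u, hu⟩ : ∃ u, u = T0 + K1 + E + 16 := ⟨_, rfl⟩
  obtain ⟨t, ht⟩ : ∃ t, t = m * (u + 2) := ⟨_, rfl⟩
  obtain ⟨T, hT⟩ : ∃ T, T = b ^ t := ⟨_, rfl⟩
  have htT : t < T := by rw [hT]; exact Nat.lt_pow_self (by omega)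
  have hut : u ≤ t := by
    rw [ht]
    calc u ≤ 1 * (u + 2) := by omega
      _ ≤ m * (u + 2) := Nat.mul_le_mul_right _ hm1
  obtain ⟨w, j0, R, hw, hR, hjR, hsmall, hwin⟩ := hrun T (by omega)
  rw [← hE] at hsmall
  obtain ⟨L, hL⟩ : ∃ L : ℕ → ℕ, ∀ j, L j = (Nat.digits b (g (Nat.nth Nat.Prime j))).length := ⟨_, fun j => rfl⟩
  obtain ⟨s, hs⟩ : ∃ s : ℕ → ℕ, ∀ j, s j = ∑ t ∈ range j, L t := ⟨_, fun j => rfl⟩
  obtain ⟨J', hJ'⟩ : ∃ J', J' = t * (100 * D + 91) := ⟨_, rfl⟩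
  have hTJ : T ^ (100 * D + 91) = b ^ J' := by rw [hT, hJ', pow_mul]
  obtain ⟨ℓ, hℓ⟩ : ∃ ℓ, ℓ = (Nat.digits b w).length := ⟨_, rfl⟩
  have hrunG : ∀ j, j0 ≤ j → j < j0 + R → g (Nat.nth Nat.Prime j) / b ^ J' = w * b ^ t := by
    intro j h1 h2
    rw [← hTJ, ← hT]
    exact hwin j h1 h2
  have hLrun : ∀ j, j0 ≤ j → j < j0 + R → L j = J' + t + ℓ := by
    intro j h1 h2
    rw [hL, hℓ]
    exact length_run b hb _ w t J' hw (hrunG j h1 h2)
  have hLle : ∀ j, j < j0 + R → L j ≤ t * E := by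
    intro j h1
    rw [hL, Nat.digits_length_le_iff (by omega), pow_mul, ← hT]
    exact hsmall j h1
  have hssucc : ∀ j, s (j + 1) = s j + L j := fun j => by rw [hs, hs, sum_range_succ]
  -- zero windows
  have hzero : ∀ j, j0 ≤ j → j < j0 + R → ∀ q, s j + ℓ ≤ q → q < s j + ℓ + t → d q = 0 := by
    intro j h1 h2 q hq1 hq2
    obtain ⟨i, rfl⟩ : ∃ i, q = s j + (ℓ + i) := ⟨q - s j - ℓ, by omega⟩
    have hLj := hLrun j h1 h2
    have h3 := hd j (ℓ + i) (by rw [← hL]; omega)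
    have h4 : s j = (∑ t ∈ Finset.range j, (Nat.digits b (g (Nat.nth Nat.Prime t))).length) := by
      rw [hs]
      exact sum_congr rfl fun t _ => hL t
    rw [h4, h3, List.getD_reverse _ (by rw [← hL]; omega), ← hL, hLj]
    exact zero_digit b hb _ w t J' _ (hrunG j h1 h2) (by omega) (by omega)
  obtain ⟨A, hAdef⟩ : ∃ A : ℕ → ℕ, ∀ n, A n =
    #((range n).filter (fun j => ∑ i ∈ range m, d (m * j + i) * b ^ (m - 1 - i) = 0)) := ⟨_, fun n => rfl⟩
  have hind : ∀ r, r ≤ R → A ((s j0 + m - 1) / m) + r * u ≤ A ((s (j0 + r) + m - 1) / m) ∧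
      s (j0 + r) = s j0 + r * (J' + t + ℓ) := by
    intro r
    induction r with
    | zero => intro _; simp
    | succ r ih =>
      intro hr
      obtain ⟨ih1, ih2⟩ := ih (by omega)
      have h1 : s (j0 + (r + 1)) = s (j0 + r) + (J' + t + ℓ) := by
        rw [← add_assoc, hssucc, hLrun (j0 + r) (by omega) (by omega)]
      have h2 := count_step d b m hm1 (s (j0 + r)) (s (j0 + (r + 1))) (s (j0 + r) + ℓ) t u (by omega)
        (by rw [h1]; omega) ht (hzero (j0 + r) (by omega) (by omega))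
      constructor
      · have h3 : (r + 1) * u = r * u + u := by ring
        rw [h3]
        have h4 : A ((s (j0 + r) + m - 1) / m) + u ≤ A ((s (j0 + (r + 1)) + m - 1) / m) := by
          rw [hAdef, hAdef]; exact h2
        omega
      · rw [h1, ih2]; ring
  obtain ⟨hI1, hI2⟩ := hind R le_rfl
  obtain ⟨s0, hs0⟩ : ∃ s0, s0 = s j0 := ⟨_, rfl⟩
  obtain ⟨s1, hs1⟩ : ∃ s1, s1 = s (j0 + R) := ⟨_, rfl⟩
  rw [← hs0, ← hs1] at hI1
  rw [← hs0, ← hs1] at hI2
  obtain ⟨q0, hq0⟩ : ∃ q0, q0 = (s0 + m - 1) / m := ⟨_, rfl⟩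
  obtain ⟨q1, hq1⟩ : ∃ q1, q1 = (s1 + m - 1) / m := ⟨_, rfl⟩
  rw [← hq0, ← hq1] at hI1
  -- R is positive
  have hTpos : 1 ≤ T := by omega
  have hRpos : 1 ≤ R := le_trans (Nat.one_le_pow _ _ hTpos) hR
  have hLE : J' + t + ℓ ≤ t * E := by
    rw [← hLrun j0 le_rfl (by omega)]
    exact hLle j0 (by omega)
  have hsR : s1 ≤ T ^ 104 := by
    have h1 : s1 ≤ (j0 + R) * (t * E) := by
      rw [hs1, hs]
      calc ∑ t ∈ range (j0 + R), L t ≤ ∑ _t ∈ range (j0 + R), t * E :=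
            sum_le_sum fun j hj => hLle j (mem_range.1 hj)
        _ = (j0 + R) * (t * E) := by rw [sum_const, card_range, smul_eq_mul]
    have h2 : t * E ≤ T * T := Nat.mul_le_mul htT.le (by omega)
    calc s1 ≤ (j0 + R) * (t * E) := h1
      _ ≤ T ^ 101 * (T * T) := Nat.mul_le_mul hjR h2
      _ = T ^ 103 := by rw [← pow_two, ← pow_add]
      _ ≤ T ^ 104 := Nat.pow_le_pow_right hTpos (by norm_num)
  have hq1le : q1 ≤ T ^ 104 := by
    refine le_trans ?_ hsR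
    rw [hq1]
    have h1 : s1 + m - 1 < (s1 + 1) * m := by
      have h2 : s1 ≤ s1 * m := Nat.le_mul_of_pos_right _ (by omega)
      have h3 : (s1 + 1) * m = s1 * m + m := by ring
      omega
    have h2 := (Nat.div_lt_iff_lt_mul (by omega : 0 < m)).2 h1
    omega
  have hq01 : q0 ≤ q1 := by
    rw [hq0, hq1]
    exact Nat.div_le_div_right (by omega)
  -- real inequalities
  have hm0 : (0 : ℝ) < m := by exact_mod_cast (by omega : 0 < m)
  have hqdiff : (q1 : ℝ) - q0 ≤ (R : ℝ) * ((u + 2) * E) + 1 := by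
    have h1 : (q1 : ℝ) * m + 1 ≤ s1 + m := by
      have h2 : q1 * m ≤ s1 + m - 1 := by rw [hq1]; exact Nat.div_mul_le_self _ _
      have h3 : q1 * m + 1 ≤ s1 + m := by omega
      exact_mod_cast h3
    have h2 : (s0 : ℝ) ≤ q0 * m := by
      have h3 : s0 + m - 1 < (q0 + 1) * m := by
        rw [← Nat.div_lt_iff_lt_mul (by omega), ← hq0]; omega
      have h4 : (q0 + 1) * m = q0 * m + m := by ring
      have h5 : s0 ≤ q0 * m := by omega
      exact_mod_cast h5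
    have h3 : (s1 : ℝ) = s0 + R * ((J' + t + ℓ : ℕ) : ℝ) := by exact_mod_cast hI2
    have h4 : (((J' + t + ℓ : ℕ) : ℝ)) ≤ t * E := by exact_mod_cast hLE
    have h5 : (R : ℝ) * ((J' + t + ℓ : ℕ) : ℝ) ≤ R * (t * E) :=
      mul_le_mul_of_nonneg_left h4 (Nat.cast_nonneg _)
    have h6 : ((q1 : ℝ) - q0) * m ≤ R * (t * E) + m := by
      rw [h3] at h1
      linarith
    have h7 : (t : ℝ) = m * (u + 2) := by exact_mod_cast ht
    rw [h7] at h6
    have h8 : (R : ℝ) * (m * (u + 2) * E) + m = ((R : ℝ) * ((u + 2) * E) + 1) * m := by ring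
    rw [h8] at h6
    exact le_of_mul_le_mul_right h6 hm0
  have hTr1 : (1 : ℝ) ≤ T := by exact_mod_cast hTpos
  have hq1r : (q1 : ℝ) ≤ (T : ℝ) ^ 104 := by exact_mod_cast hq1le
  have hq0r : (q0 : ℝ) ≤ (T : ℝ) ^ 104 := le_trans (by exact_mod_cast hq01) hq1r
  have hsq1 := sqrt_bound (q1 : ℝ) T (by linarith) hq1r
  have hsq0 := sqrt_bound (q0 : ℝ) T (by linarith) hq0r
  have hA1 := (abs_le.1 (hK q1)).2
  have hA0 := (abs_le.1 (hK q0)).1
  rw [← hAdef] at hA1 hA0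
  have hbm : (4 : ℝ) * E ≤ (b : ℝ) ^ m := by
    have h1 : m < b ^ m := Nat.lt_pow_self (by omega)
    have h2 : 4 * E ≤ b ^ m := by omega
    exact_mod_cast h2
  have hKT : K ≤ (T : ℝ) ^ 78 := by
    refine hK1.trans ?_
    have h1 : (K1 : ℝ) ≤ T := by exact_mod_cast (by omega : K1 ≤ T)
    exact h1.trans (le_self_pow₀ hTr1 (by norm_num))
  exact numeric R u T K (A q0) (A q1) q0 q1 ((b : ℝ) ^ m) E (Nat.cast_nonneg _)
    (by exact_mod_cast (by omega : 16 ≤ u)) (by exact_mod_cast (by omega : 16 ≤ T)) (by exact_mod_cast hR) hKT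
    (by exact_mod_cast (by omega : 0 < E)) (one_le_pow₀ (by exact_mod_cast (by omega : 1 ≤ b))) hbm hqdiff
    (by linarith) (by linarith) (by exact_mod_cast hI1)

end Pool.Agent.H428R3.SN
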